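import Mathlib

/-! Operators that commute up to a root of unity, and three term relations. -/

set_option autoImplicit false

namespace Pool.Agent.Lib.MP_e29efe_nt

open Polynomial Finset
open scoped commutatorElement

section Ring
variable {A : Type*} [Ring A] [Algebra ℂ A] {X U : A} {ζ : ℂ}

theorem mul_pow_left (h : U * X = ζ • (X * U)) (m : ℕ) : U * X ^ m = ζ ^ m • (X ^ m * U) := by
  induction m with
  | zero => simp
  | succ m ih =>
    rw [pow_succ X m, ← mul_assoc, ih, smul_mul_assoc, mul_assoc, h, mul_smul_comm, smul_smul,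
      ← mul_assoc, pow_succ ζ m]

theorem mul_pow_right (h : U * X = ζ • (X * U)) (m : ℕ) : U ^ m * X = ζ ^ m • (X * U ^ m) := by
  induction m with
  | zero => simp
  | succ m ih =>
    rw [pow_succ U m, mul_assoc, h, mul_smul_comm, ← mul_assoc, ih, smul_mul_assoc, smul_smul,
      mul_assoc, pow_succ' ζ m]

theorem qpow (h : U * X = ζ • (X * U)) (b c : ℂ) (m : ℕ) :
    (X * (b • (1 : A) + c • U)) ^ m =
      X ^ m * aeval U (∏ j ∈ range m, (C b + C (c * ζ ^ j) * Polynomial.X)) := by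
  induction m with
  | zero => simp
  | succ m ih =>
    have e : (b • (1 : A) + c • U) * X ^ m =
        X ^ m * aeval U (C b + C (c * ζ ^ m) * Polynomial.X) := by
      rw [add_mul, smul_mul_assoc, smul_mul_assoc, mul_pow_left h, smul_smul, map_add, map_mul,
        aeval_C, aeval_C, aeval_X, Algebra.algebraMap_eq_smul_one, Algebra.algebraMap_eq_smul_one,
        mul_add, mul_smul_comm, smul_mul_assoc, mul_smul_comm, one_mul, mul_one, one_mul]
    rw [pow_succ', ih, prod_range_succ_comm, map_mul, mul_assoc, ← mul_assoc _ (X ^ m), e,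
      pow_succ', mul_assoc, mul_assoc]

theorem prod_eq {n : ℕ} (hζ : IsPrimitiveRoot ζ n) (hn : 0 < n) (b c : ℂ) :
    ∏ j ∈ range n, (C b + C (c * ζ ^ j) * Polynomial.X) =
      C (b ^ n) - C ((-c) ^ n) * Polynomial.X ^ n := by
  refine Polynomial.funext fun t => ?_
  have h := congrArg (eval b) (X_pow_sub_C_eq_prod hζ (α := -c * t) hn rfl)
  simp only [eval_sub, eval_pow, eval_X, eval_C, eval_prod] at h
  simp only [eval_prod, eval_add, eval_mul, eval_C, eval_X, eval_sub, eval_pow]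
  rw [← mul_pow, h]
  exact prod_congr rfl fun j _ => by ring

theorem qpow_n (h : U * X = ζ • (X * U)) {n : ℕ} (hζ : IsPrimitiveRoot ζ n) (hn : 0 < n)
    (b c : ℂ) :
    (X * (b • (1 : A) + c • U)) ^ n = b ^ n • X ^ n - (-c) ^ n • (X ^ n * U ^ n) := by
  rw [qpow h, prod_eq hζ hn, map_sub, map_mul, aeval_C, aeval_C, map_pow (aeval U), aeval_X,
    Algebra.algebraMap_eq_smul_one, Algebra.algebraMap_eq_smul_one, mul_sub, mul_smul_comm,
    smul_mul_assoc, mul_smul_comm, one_mul, mul_one]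

end Ring

section Lin
variable {V : Type*} [AddCommGroup V] [Module ℂ V]

theorem eig [FiniteDimensional ℂ V] (T : Module.End ℂ V) (S : Submodule ℂ V) {v : V}
    (hv : v ∈ S) (h0 : v ≠ 0) (hT : ∀ w ∈ S, T w ∈ S) :
    ∃ μ : ℂ, ∃ w ∈ S, w ≠ 0 ∧ T w = μ • w := by
  have : Nontrivial S := ⟨⟨⟨v, hv⟩, 0, fun e => h0 (congrArg Subtype.val e)⟩⟩
  obtain ⟨μ, hμ⟩ := Module.End.exists_eigenvalue (T.restrict hT)
  obtain ⟨w, hw⟩ := hμ.exists_hasEigenvector
  refine ⟨μ, w, w.2, fun e => hw.2 (Subtype.ext e), ?_⟩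
  exact congrArg Subtype.val hw.apply_eq_smul

theorem pow_apply_of {T : Module.End ℂ V} {μ : ℂ} {w : V} (h : T w = μ • w) (m : ℕ) :
    (T ^ m) w = μ ^ m • w := by
  induction m with
  | zero => simp
  | succ m ih => rw [pow_succ, Module.End.mul_apply, h, map_smul, ih, smul_smul, pow_succ']

theorem root_of {T : Module.End ℂ V} {μ : ℂ} {w : V} (h : T w = μ • w) (h0 : w ≠ 0) {N : ℕ}
    (hN : T ^ N = 1) : μ ^ N = 1 := by
  have h1 := pow_apply_of h N
  rw [hN, Module.End.one_apply] at h1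
  have h2 : (μ ^ N - 1) • w = 0 := by rw [sub_smul, one_smul, ← h1, sub_self]
  exact sub_eq_zero.1 ((smul_eq_zero.1 h2).resolve_right h0)

theorem inv_of_comm {T Z : Module.End ℂ V} (h : T * Z = Z * T) (μ : ℂ) :
    ∀ w ∈ T.eigenspace μ, Z w ∈ T.eigenspace μ := by
  intro w hw
  rw [Module.End.mem_eigenspace_iff] at hw ⊢
  rw [← Module.End.mul_apply, h, Module.End.mul_apply, hw, map_smul]

theorem core [FiniteDimensional ℂ V] {X U : Module.End ℂ V} {ζ : ℂ} {n N : ℕ}
    (h : U * X = ζ • (X * U)) (hζ : IsPrimitiveRoot ζ n) (hn : 0 < n) (hX : X ^ N = 1)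
    (hU : U ^ N = 1) {a b c : ℂ} {v : V} (h0 : v ≠ 0)
    (hv : (X * (b • (1 : Module.End ℂ V) + c • U)) v = a • v) :
    ∃ l m : ℂ, l ^ N = 1 ∧ m ^ N = 1 ∧ a ^ n = b ^ n * l - (-c) ^ n * m := by
  set T := X * (b • (1 : Module.End ℂ V) + c • U) with hT
  have c1 : Commute U (X ^ n) := by
    have := mul_pow_left h n
    rwa [hζ.pow_eq_one, one_smul] at this
  have c2 : Commute (U ^ n) X := by
    have := mul_pow_right h n
    rwa [hζ.pow_eq_one, one_smul] at this
  have d1 : Commute T (X ^ n) :=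
    ((Commute.refl X).pow_right n).mul_left
      (((Commute.one_left _).smul_left b).add_left (c1.smul_left c))
  have d2 : Commute T (U ^ n) :=
    c2.symm.mul_left
      (((Commute.one_left _).smul_left b).add_left (((Commute.refl U).pow_right n).smul_left c))
  have d3 : Commute (X ^ n) (U ^ n) := (c2.pow_right n).symm
  obtain ⟨l, w, hw, w0, hl⟩ := eig (X ^ n) (T.eigenspace a)
    (Module.End.mem_eigenspace_iff.2 hv) h0 (inv_of_comm d1 a)
  obtain ⟨m, u, hu, u0, hm⟩ := eig (U ^ n) (T.eigenspace a ⊓ (X ^ n).eigenspace l)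
    (v := w) ⟨hw, Module.End.mem_eigenspace_iff.2 hl⟩ w0
    (fun y hy => ⟨inv_of_comm d2 a y hy.1, inv_of_comm d3 l y hy.2⟩)
  have u1 : T u = a • u := Module.End.mem_eigenspace_iff.1 hu.1
  have u2 : (X ^ n) u = l • u := Module.End.mem_eigenspace_iff.1 hu.2
  have l1 : l ^ N = 1 := root_of u2 u0 (by rw [← pow_mul, mul_comm, pow_mul, hX, one_pow])
  have m1 : m ^ N = 1 := root_of hm u0 (by rw [← pow_mul, mul_comm, pow_mul, hU, one_pow])
  refine ⟨l, l * m, l1, by rw [mul_pow, l1, m1, one_mul], ?_⟩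
  have e := pow_apply_of u1 n
  rw [hT, qpow_n h hζ hn, LinearMap.sub_apply, LinearMap.smul_apply, LinearMap.smul_apply,
    Module.End.mul_apply, hm, map_smul, u2, smul_smul, smul_smul, smul_smul, ← sub_smul] at e
  have e2 : (a ^ n - (b ^ n * l - (-c) ^ n * m * l)) • u = 0 := by rw [sub_smul, ← e, sub_self]
  have e3 := sub_eq_zero.1 ((smul_eq_zero.1 e2).resolve_right u0)
  rw [e3]; ring

end Lin

/-- right translation of functions on a group -/
noncomputable def rt (G : Type*) [Group G] : G →* Module.End ℂ (G → ℂ) where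
  toFun y := LinearMap.funLeft ℂ ℂ (fun x => x * y)
  map_one' := by ext f x; simp
  map_mul' y z := by ext f x; simp [LinearMap.funLeft_apply, mul_assoc]

theorem rt_apply {G : Type*} [Group G] (y : G) (f : G → ℂ) (x : G) : rt G y f x = f (x * y) := rfl

theorem grp {G : Type*} [Group G] [Finite G] (hG : commutator G ≤ Subgroup.center G) (g h : G)
    {a b c : ℂ} (f : G → ℂ) (f0 : f ≠ 0) (hf : ∀ x, a * f x + b * f (x * g) + c * f (x * h) = 0) :
    ∃ n : ℕ, 0 < n ∧ n ∣ Nat.card G ∧ ∃ l m : ℂ, l ^ Nat.card G = 1 ∧ m ^ Nat.card G = 1 ∧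
      (-a) ^ n = b ^ n * l - (-c) ^ n * m := by
  set u := g⁻¹ * h with hu
  set z := ⁅u, g⁆ with hz
  have zc : ∀ y, y * z = z * y := fun y =>
    Subgroup.mem_center_iff.1 (hG (Subgroup.commutator_mem_commutator (Subgroup.mem_top u)
      (Subgroup.mem_top g))) y
  have e1 : u * g = g * u * z := by
    rw [zc, hz, commutatorElement_def]; group
  have cz : ∀ y, Commute (rt G y) (rt G z) := fun y => by
    have : rt G (y * z) = rt G (z * y) := by rw [zc]
    rwa [map_mul, map_mul] at this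
  set T := rt G g * (b • (1 : Module.End ℂ (G → ℂ)) + c • rt G u) with hT
  have hTf : T f = (-a) • f := by
    funext x
    have := hf x
    simp only [hT, Module.End.mul_apply, LinearMap.add_apply, LinearMap.smul_apply,
      Module.End.one_apply, rt_apply, Pi.add_apply, Pi.smul_apply, smul_eq_mul, hu,
      mul_assoc, mul_inv_cancel_left]
    linear_combination this
  have d : Commute T (rt G z) :=
    (cz g).mul_left (((Commute.one_left _).smul_left b).add_left ((cz u).smul_left c))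
  obtain ⟨ζ, w, hw, w0, hζ⟩ := eig (rt G z) (T.eigenspace (-a))
    (Module.End.mem_eigenspace_iff.2 hTf) f0 (inv_of_comm d _)
  have pw : ∀ y : G, rt G y ^ Nat.card G = 1 := fun y => by
    rw [← map_pow, pow_card_eq_one', map_one]
  have z1 : ζ ^ Nat.card G = 1 := root_of hζ w0 (pw z)
  have hfin : IsOfFinOrder ζ := isOfFinOrder_iff_pow_eq_one.2 ⟨_, Nat.card_pos, z1⟩
  set E := (rt G z).eigenspace ζ with hE
  have iv : ∀ y, ∀ v ∈ E, rt G y v ∈ E := fun y => inv_of_comm (cz y).symm ζ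
  let ρ : G →* Module.End ℂ E :=
    { toFun := fun y => (rt G y).restrict (iv y)
      map_one' := by ext v : 2; simp [LinearMap.restrict_apply]
      map_mul' := fun y y' => by ext v : 2; simp [LinearMap.restrict_apply] }
  have hρ : ∀ y (v : E), (ρ y v : G → ℂ) = rt G y v := fun _ _ => rfl
  have pρ : ∀ y : G, ρ y ^ Nat.card G = 1 := fun y => by
    rw [← map_pow, pow_card_eq_one', map_one]
  have rz : ρ z = ζ • (1 : Module.End ℂ E) := by
    ext v : 2
    exact Module.End.mem_eigenspace_iff.1 v.2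
  have key : ρ u * ρ g = ζ • (ρ g * ρ u) := by
    rw [← map_mul, e1, map_mul, map_mul, rz, mul_smul_comm, mul_one]
  refine ⟨orderOf ζ, hfin.orderOf_pos, orderOf_dvd_of_pow_eq_one z1, ?_⟩
  refine core key (IsPrimitiveRoot.orderOf ζ) hfin.orderOf_pos (pρ g) (pρ u)
    (v := ⟨w, Module.End.mem_eigenspace_iff.2 hζ⟩) (fun e => w0 (congrArg Subtype.val e)) ?_
  refine Subtype.ext ?_
  exact Module.End.mem_eigenspace_iff.1 hw

end Pool.Agent.Lib.MP_e29efe_nt
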