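import Mathlib

/-! Solutions in dihedral Kummer fields. -/

set_option autoImplicit false

namespace Pool.Agent.Lib.MP_e29efe_nt

open Polynomial

/-- a solution whose Galois group has an abelian subgroup of index at most two -/
def Sol (F : Type) [Field F] [Algebra F ℂ] (a b c : ℤ) : Prop :=
  ∃ α β γ : ℂ, α ≠ 0 ∧ IsAlgebraic F α ∧ aeval β (minpoly F α) = 0 ∧ aeval γ (minpoly F α) = 0 ∧
    α ^ a * β ^ b * γ ^ c = 1 ∧ (∀ k : ℕ, 0 < k → α ^ k ≠ 1) ∧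
    ∃ A : Subgroup (minpoly F α).Gal, A.index ≤ 2 ∧ ∀ x ∈ A, ∀ y ∈ A, x * y = y * x

variable {F K : Type} [Field F] [Algebra F ℂ] [Field K] [Algebra F K]

theorem sol_of [Normal F K] (ι : K →ₐ[F] ℂ) {ζ θ y : K} {m : ℕ} (hm : 0 < m)
    (hζ : IsPrimitiveRoot ζ m) (θ0 : θ ≠ 0) (hθ : ∀ τ : K ≃ₐ[F] K, τ θ ^ m = θ ^ m)
    (hz : ∀ τ : K ≃ₐ[F] K, τ ζ = ζ ∨ τ ζ = ζ⁻¹) (hy : y ∈ Subfield.closure ({ζ, θ} : Set K))
    (y0 : y ≠ 0) (hr : ∀ k : ℕ, 0 < k → y ^ k ≠ 1) {a b c : ℤ} (g1 g2 g3 : K ≃ₐ[F] K)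
    (rel : g1 y ^ a * g2 y ^ b * g3 y ^ c = 1) : Sol F a b c := by
  have mp : minpoly F (ι y) = minpoly F y := minpoly.algHom_eq ι ι.injective y
  have ya : IsAlgebraic F y := Algebra.IsAlgebraic.isAlgebraic y
  have rt : ∀ g : K ≃ₐ[F] K, aeval (ι (g y)) (minpoly F (ι y)) = 0 := fun g => by
    rw [mp, aeval_algHom_apply, aeval_algHom_apply, minpoly.aeval, map_zero, map_zero]
  refine ⟨ι y, ι ((g1⁻¹ * g2) y), ι ((g1⁻¹ * g3) y), (map_ne_zero ι).2 y0, ya.algHom ι, rt _, rt _,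
    ?_, fun k hk e => hr k hk (ι.injective ?_), ?_⟩
  · have := congrArg (fun x => ι (g1⁻¹ x)) rel
    simpa [map_zpow₀] using this
  · change ι _ = ι _
    rw [map_pow, e, map_one]
  rw [mp]
  have : Fact ((minpoly F y).map (algebraMap F K)).Splits := ⟨Normal.splits inferInstance y⟩
  have : NeZero m := ⟨hm.ne'⟩
  have pw : ∀ τ : K ≃ₐ[F] K, ∃ k : ℕ, τ θ = ζ ^ k * θ := fun τ => by
    obtain ⟨k, -, e⟩ := hζ.eq_pow_of_pow_eq_one (ξ := τ θ / θ)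
      (by rw [div_pow, hθ, div_self (pow_ne_zero m θ0)])
    exact ⟨k, by rw [e, div_mul_cancel₀ _ θ0]⟩
  refine ⟨(MulAction.stabilizer (K ≃ₐ[F] K) ζ).map (Gal.restrict _ K), ?_, ?_⟩
  · have h1 : MulAction.orbit (K ≃ₐ[F] K) ζ ⊆ {ζ, ζ⁻¹} := by
      rintro _ ⟨τ, rfl⟩; exact hz τ
    have h2 : (MulAction.stabilizer (K ≃ₐ[F] K) ζ).index ≤ 2 := by
      rw [MulAction.index_stabilizer]
      exact (Set.ncard_le_ncard h1 (Set.toFinite _)).trans ((Set.ncard_insert_le _ _).trans (by simp))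
    have h3 : 0 < (MulAction.stabilizer (K ≃ₐ[F] K) ζ).index := by
      rw [MulAction.index_stabilizer]
      exact (Set.ncard_pos ((Set.toFinite _).subset h1)).2 ⟨ζ, MulAction.mem_orbit_self ζ⟩
    exact (Nat.le_of_dvd h3 (Subgroup.index_map_dvd _ (Gal.restrict_surjective _ K))).trans h2
  · rintro _ ⟨σ, hσ, rfl⟩ _ ⟨ρ, hρ, rfl⟩
    have s1 : σ ζ = ζ := hσ
    have s2 : ρ ζ = ζ := hρ
    rw [← map_mul, ← map_mul]
    refine Gal.galActionHom_injective _ K (Equiv.ext fun x => Subtype.ext ?_)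
    rw [Gal.galActionHom_restrict, Gal.galActionHom_restrict]
    obtain ⟨τ, hτ⟩ := minpoly.exists_algEquiv_of_root' ya (x := (x : K)) (mem_rootSet.1 x.2).2
    rw [← hτ]
    refine RingHom.eqOn_field_closure (f := ((σ * ρ * τ : K ≃ₐ[F] K) : K →+* K))
      (g := ((ρ * σ * τ : K ≃ₐ[F] K) : K →+* K)) ?_ hy
    rintro _ (rfl | rfl)
    · rcases hz τ with e | e <;> simp [e, s1, s2]
    · obtain ⟨i, hi⟩ := pw τ
      obtain ⟨j, hj⟩ := pw σ
      obtain ⟨k, hk⟩ := pw ρ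
      change σ (ρ (τ _)) = ρ (σ (τ _))
      simp only [hi, hj, hk, s1, s2, map_mul, map_pow]
      ring

theorem vec {a b c t p q : ℤ} (hN : p ^ 2 + t * p * q + q ^ 2 = 1)
    (h : a ^ 2 + b ^ 2 + (2 * p + t * q) * a * b = c ^ 2) : ∃ x y : ℤ, (x ≠ 0 ∨ y ≠ 0) ∧
      x * a + (p * x - q * y) * b + (x + t * y) * c = 0 ∧
      y * a + (p * y + q * x + t * q * y) * b + (-y) * c = 0 := by
  by_cases h0 : a + b * p + t * b * q - c = 0 ∧ -(b * q) = 0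
  · exact ⟨-t, 2, .inr two_ne_zero, by linear_combination (-t) * h0.1 + (2 - t ^ 2) * h0.2,
      by linear_combination 2 * h0.1 + t * h0.2⟩
  · exact ⟨_, _, not_and_or.1 h0, by linear_combination h + b ^ 2 * hN, by ring⟩

/-- the rank two lattice of units spanned by `d` and `σ d` -/
theorem lattice (ι : K →ₐ[F] ℂ) {d e : K} {t : ℤ} (ht : t = 0 ∨ t = 1) (σ τ : K ≃ₐ[F] K)
    (hτ : ∀ x, ι (τ x) = starRingEnd ℂ (ι x)) (d0 : d ≠ 0) (h0 : σ d = e)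
    (h1 : σ e = e ^ t * d⁻¹) (h2 : τ d = d) (h3 : τ e = d ^ t * e⁻¹) (hd : ‖ι d‖ ≠ 1)
    {a b c s : ℤ} (hs : t = 0 ∧ s = 0 ∨ t = 1 ∧ (s = 2 ∨ s = 1 ∨ s = -1 ∨ s = -2))
    (h : a ^ 2 + b ^ 2 + s * a * b = c ^ 2) :
    ∃ x y : ℤ, (∀ k : ℕ, 0 < k → (d ^ x * e ^ y) ^ k ≠ 1) ∧ ∃ ρ : K ≃ₐ[F] K,
      (d ^ x * e ^ y) ^ a * ρ (d ^ x * e ^ y) ^ b * τ (d ^ x * e ^ y) ^ c = 1 := by
  have e0 : e ≠ 0 := h0 ▸ (map_ne_zero σ).2 d0
  have fs : ∀ x y : ℤ, σ (d ^ x * e ^ y) = d ^ (-y) * e ^ (x + t * y) := fun x y => by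
    rw [map_mul, map_zpow₀, map_zpow₀, h0, h1, mul_zpow, inv_zpow', ← zpow_mul, zpow_add₀ e0]
    ring
  have ft : ∀ x y : ℤ, τ (d ^ x * e ^ y) = d ^ (x + t * y) * e ^ (-y) := fun x y => by
    rw [map_mul, map_zpow₀, map_zpow₀, h2, h3, mul_zpow, inv_zpow', ← zpow_mul, zpow_add₀ d0]
    ring
  obtain ⟨p, q, ρ, hN, rfl, fr⟩ : ∃ (p q : ℤ) (ρ : K ≃ₐ[F] K), p ^ 2 + t * p * q + q ^ 2 = 1 ∧
      s = 2 * p + t * q ∧
      ∀ x y : ℤ, ρ (d ^ x * e ^ y) = d ^ (p * x - q * y) * e ^ (p * y + q * x + t * q * y) := by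
    rcases hs with ⟨rfl, rfl⟩ | ⟨rfl, rfl | rfl | rfl | rfl⟩
    · exact ⟨0, 1, σ, by norm_num, by norm_num, fun x y => by rw [fs]; congr 2 <;> ring⟩
    · exact ⟨1, 0, 1, by norm_num, by norm_num, fun x y => by simp⟩
    · exact ⟨0, 1, σ, by norm_num, by norm_num, fun x y => by rw [fs]; congr 2 <;> ring⟩
    · exact ⟨-1, 1, σ * σ, by norm_num, by norm_num, fun x y => by
        rw [AlgEquiv.mul_apply, fs, fs]; congr 2 <;> ring⟩
    · exact ⟨-1, 0, σ * σ * σ, by norm_num, by norm_num, fun x y => by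
        rw [AlgEquiv.mul_apply, AlgEquiv.mul_apply, fs, fs, fs]; congr 2 <;> ring⟩
  obtain ⟨x, y, hxy, k1, k2⟩ := vec hN h
  refine ⟨x, y, fun k hk hc => ?_, ρ, ?_⟩
  · have nd : 0 < ‖ι d‖ := norm_pos_iff.2 ((map_ne_zero ι).2 d0)
    have ne : 0 < ‖ι e‖ := norm_pos_iff.2 ((map_ne_zero ι).2 e0)
    have lg : ∀ u v : ℤ, Real.log ‖ι (d ^ u * e ^ v)‖ =
        u * Real.log ‖ι d‖ + v * Real.log ‖ι e‖ := fun u v => by
      rw [map_mul, map_zpow₀, map_zpow₀, norm_mul, norm_zpow, norm_zpow,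
        Real.log_mul (zpow_ne_zero _ nd.ne') (zpow_ne_zero _ ne.ne'), Real.log_zpow, Real.log_zpow]
    have un : ∀ w : K, w ^ k = 1 → Real.log ‖ι w‖ = 0 := fun w hw => by
      rw [Complex.norm_eq_one_of_pow_eq_one (by rw [← map_pow, hw, map_one]) hk.ne', Real.log_one]
    have l1 := un _ hc
    have l2 := un (σ (d ^ x * e ^ y)) (by rw [← map_pow, hc, map_one])
    have l3 := lg t (-1)
    rw [zpow_neg_one, ← h3, hτ, Complex.norm_conj] at l3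
    rw [fs, lg] at l2
    rw [lg] at l1
    have r0 : Real.log ‖ι d‖ ≠ 0 := Real.log_ne_zero_of_pos_of_ne_one nd hd
    push_cast at l2 l3
    have m1 : ((2 * x + t * y : ℤ) : ℝ) * Real.log ‖ι d‖ = 0 := by
      push_cast; linear_combination 2 * l1 - y * l3
    have m2 : ((-2 * y + t * (x + t * y) : ℤ) : ℝ) * Real.log ‖ι d‖ = 0 := by
      push_cast; linear_combination 2 * l2 - (x + t * y) * l3
    have m3 : 2 * x + t * y = 0 := by exact_mod_cast (mul_eq_zero.1 m1).resolve_right r0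
    have m4 : -2 * y + t * (x + t * y) = 0 := by
      exact_mod_cast (mul_eq_zero.1 m2).resolve_right r0
    rcases ht with rfl | rfl <;> omega
  · rw [fr, ft]
    simp only [mul_zpow, ← zpow_mul]
    calc _ = d ^ (x * a + (p * x - q * y) * b + (x + t * y) * c) *
          e ^ (y * a + (p * y + q * x + t * q * y) * b + (-y) * c) := by
          rw [zpow_add₀ d0, zpow_add₀ d0, zpow_add₀ e0, zpow_add₀ e0]; ring
      _ = 1 := by rw [k1, k2]; simp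

theorem gam_norm {u : ℂ} (hu : 0 < u.re) (h1 : 1 - u ≠ 0) : 1 < ‖(1 + u) / (1 - u)‖ := by
  rw [norm_div, one_lt_div (norm_pos_iff.2 h1), ← sq_lt_sq₀ (norm_nonneg _) (norm_nonneg _),
    Complex.sq_norm, Complex.sq_norm, Complex.normSq_apply, Complex.normSq_apply]
  simp
  nlinarith

theorem kummer [Normal F K] (ι : K →ₐ[F] ℂ) (τ : K ≃ₐ[F] K)
    (hτ : ∀ x, ι (τ x) = starRingEnd ℂ (ι x)) {ζ θ : K} {t : ℤ} {n : ℕ}
    (hn : t = 0 ∧ n = 2 ∨ t = 1 ∧ n = 3) (hζ : IsPrimitiveRoot ζ (2 * n)) (hθ : θ ^ (2 * n) = 2)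
    (r : ℝ) (r0 : 0 < r) (hr : ι θ = r) (hirr : Irreducible (X ^ (2 * n) - C 2 : F[X]))
    {a b c s : ℤ} (hs : t = 0 ∧ s = 0 ∨ t = 1 ∧ (s = 2 ∨ s = 1 ∨ s = -1 ∨ s = -2))
    (h : a ^ 2 + b ^ 2 + s * a * b = c ^ 2) : Sol F a b c ∧ Sol F c a b ∧ Sol F b c a := by
  have hm : 0 < 2 * n := by omega
  have : CharZero K := (ι : K →+* ℂ).charZero
  have z0 : ζ ≠ 0 := hζ.ne_zero hm.ne'
  have θ0 : θ ≠ 0 := by rintro rfl; simp [hm.ne'] at hθ
  have qd : ζ ^ 2 - t * ζ + 1 = 0 := by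
    have k0 := hζ.pow_eq_one
    have k2 : ζ ^ 2 - 1 ≠ 0 := sub_ne_zero.2 (hζ.pow_ne_one_of_pos_of_lt (by norm_num) (by omega))
    rcases hn with ⟨rfl, rfl⟩ | ⟨rfl, rfl⟩
    · refine (mul_eq_zero.1 ?_).resolve_left k2
      push_cast; linear_combination k0
    · have k3 : ζ ^ 3 - 1 ≠ 0 :=
        sub_ne_zero.2 (hζ.pow_ne_one_of_pos_of_lt (by norm_num) (by omega))
      have k1 : ζ + 1 ≠ 0 := fun e => k2 (by linear_combination (ζ - 1) * e)
      refine (mul_eq_zero.1 ?_).resolve_left (mul_ne_zero k3 k1)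
      push_cast; linear_combination k0
  have zi : ζ⁻¹ = t - ζ := inv_eq_of_mul_eq_one_right (by linear_combination -qd)
  have hz : ∀ ρ : K ≃ₐ[F] K, ρ ζ = ζ ∨ ρ ζ = ζ⁻¹ := fun ρ => by
    have e := congrArg ρ qd
    simp only [map_add, map_sub, map_mul, map_pow, map_intCast, map_one, map_zero] at e
    have e2 : (ρ ζ - ζ) * (ρ ζ - ζ⁻¹) = 0 := by rw [zi]; linear_combination e - qd
    exact (mul_eq_zero.1 e2).imp sub_eq_zero.1 sub_eq_zero.1
  have n1 : ‖ι ζ‖ = 1 :=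
    Complex.norm_eq_one_of_pow_eq_one (by rw [← map_pow, hζ.pow_eq_one, map_one]) hm.ne'
  have tz : τ ζ = ζ⁻¹ := ι.injective (by
    change ι _ = ι _
    rw [hτ, map_inv₀, Complex.inv_eq_conj n1])
  have tθ : τ θ = θ := ι.injective (by
    change ι _ = ι _
    rw [hτ, hr, Complex.conj_ofReal])
  have hp : ∀ ρ : K ≃ₐ[F] K, ρ θ ^ (2 * n) = θ ^ (2 * n) := fun ρ => by
    rw [← map_pow, hθ, map_ofNat]
  obtain ⟨σ, sz, sθ⟩ : ∃ σ : K ≃ₐ[F] K, σ ζ = ζ ∧ σ θ = ζ * θ := by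
    have mp : X ^ (2 * n) - C 2 = minpoly F θ := minpoly.eq_of_irreducible_of_monic hirr
      (by simp [hθ, map_ofNat]) (monic_X_pow_sub_C _ hm.ne')
    obtain ⟨σ, hσ⟩ := minpoly.exists_algEquiv_of_root' (Algebra.IsAlgebraic.isAlgebraic θ)
      (x := ζ * θ) (by rw [← mp]; simp [mul_pow, hζ.pow_eq_one, hθ, map_ofNat])
    rcases hz σ with e | e
    · exact ⟨σ, e, hσ⟩
    · exact ⟨σ * τ, by simp [tz, e], by simp [tθ, hσ]⟩
  have nz : ∀ u : K, u ^ (2 * n) = 1 → 1 + u * θ ≠ 0 ∧ 1 - u * θ ≠ 0 := fun u hu => by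
    have e : (u * θ) ^ (2 * n) = 2 := by rw [mul_pow, hu, hθ, one_mul]
    constructor <;> intro e1
    · rw [show u * θ = -1 by linear_combination e1, pow_mul] at e; norm_num at e
    · rw [show u * θ = 1 by linear_combination -e1] at e; norm_num at e
  let g : K → K := fun u => (1 + u * θ) / (1 - u * θ)
  have gs : ∀ k : ℕ, σ (g (ζ ^ k)) = g (ζ ^ (k + 1)) := fun k => by
    simp only [g, map_div₀, map_add, map_sub, map_mul, map_pow, map_one, sz, sθ, pow_succ,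
      mul_assoc]
  have gt : ∀ k : ℕ, τ (g (ζ ^ k)) = g (ζ⁻¹ ^ k) := fun k => by
    simp only [g, map_div₀, map_add, map_sub, map_mul, map_pow, map_one, tz, tθ]
  have gn : ∀ u, g (-u) = (g u)⁻¹ := fun u => by
    simp only [g, inv_div, neg_mul, sub_neg_eq_add, ← sub_eq_add_neg]
  have zk : ∀ k : ℕ, (ζ ^ k) ^ (2 * n) = 1 := fun k => by
    rw [← pow_mul, mul_comm, pow_mul, hζ.pow_eq_one, one_pow]
  have g0 : ∀ k : ℕ, g (ζ ^ k) ≠ 0 := fun k => div_ne_zero (nz _ (zk k)).1 (nz _ (zk k)).2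
  have gm : ∀ k : ℕ, g (ζ ^ k) ∈ Subfield.closure ({ζ, θ} : Set K) := fun k => by
    have m1 : ζ ^ k * θ ∈ Subfield.closure ({ζ, θ} : Set K) :=
      mul_mem (pow_mem (Subfield.subset_closure (by simp)) k) (Subfield.subset_closure (by simp))
    exact div_mem (add_mem (one_mem _) m1) (sub_mem (one_mem _) m1)
  have gb : ∀ k : ℕ, 0 < (ι (ζ ^ k)).re → 1 < ‖ι (g (ζ ^ k))‖ := fun k hk => by
    have := gam_norm (u := ι (ζ ^ k * θ)) (by rw [map_mul, hr]; simpa using mul_pos hk r0)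
      (by rw [← map_one ι, ← map_sub]; exact (map_ne_zero ι).2 (nz _ (zk k)).2)
    simpa only [g, map_div₀, map_add, map_sub, map_one] using this
  obtain ⟨d, e, d0, dm, em, h0, h1, h2, h3, hd⟩ : ∃ d e : K, d ≠ 0 ∧
      d ∈ Subfield.closure ({ζ, θ} : Set K) ∧ e ∈ Subfield.closure ({ζ, θ} : Set K) ∧ σ d = e ∧
      σ e = e ^ t * d⁻¹ ∧ τ d = d ∧ τ e = d ^ t * e⁻¹ ∧ ‖ι d‖ ≠ 1 := by
    have b0 := gb 0 (by simp)
    rcases hn with ⟨rfl, rfl⟩ | ⟨rfl, rfl⟩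
    · push_cast at qd zi
      refine ⟨g (ζ ^ 0), g (ζ ^ 1), g0 0, gm 0, gm 1, gs 0, ?_, ?_, ?_, b0.ne'⟩
      · rw [gs, zpow_zero, one_mul, ← gn]; congr 1; linear_combination qd
      · rw [gt]; simp
      · rw [gt, zpow_zero, one_mul, ← gn, zi]; congr 1; ring
    · push_cast at qd zi
      have s2 : σ (g (ζ ^ 2)) = (g (ζ ^ 0))⁻¹ := by
        rw [gs, ← gn]; congr 1; linear_combination (ζ + 1) * qd
      have t0 : τ (g (ζ ^ 0)) = g (ζ ^ 0) := by rw [gt]; simp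
      have t1 : τ (g (ζ ^ 1)) = (g (ζ ^ 2))⁻¹ := by
        rw [gt, ← gn, zi]; congr 1; linear_combination qd
      have t2 : τ (g (ζ ^ 2)) = (g (ζ ^ 1))⁻¹ := by
        rw [gt, ← gn, zi]; congr 1; linear_combination qd
      have b1 := gb 1 (by
        have e1 := congrArg (fun x => (ι x).re) (tz.trans zi)
        simp only [hτ, map_sub, map_one, Complex.conj_re, Complex.sub_re, Complex.one_re] at e1
        rw [pow_one]; linarith)
      have b2 : ‖ι (g (ζ ^ 2))⁻¹‖ = ‖ι (g (ζ ^ 1))‖ := by rw [← t1, hτ, Complex.norm_conj]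
      have s0 := gs 0
      have s1 := gs 1
      have a0 := g0 0
      have a1 := g0 1
      have a2 := g0 2
      have m0 := gm 0
      have m1 := gm 1
      have m2 := gm 2
      norm_num only at s0 s1
      generalize g (ζ ^ 0) = A at *
      generalize g (ζ ^ 1) = B at *
      generalize g (ζ ^ 2) = C at *
      refine ⟨A * A * B * C⁻¹, B * B * C * A, by simp [a0, a1, a2],
        mul_mem (mul_mem (mul_mem m0 m0) m1) (inv_mem m2),
        mul_mem (mul_mem (mul_mem m1 m1) m2) m0, by simp [s0, s1, s2], ?_, ?_, ?_, ?_⟩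
      · simp only [map_mul, s0, s1, s2, zpow_one]; field_simp
      · simp only [map_mul, map_inv₀, t0, t1, t2, inv_inv]; ring
      · simp only [map_mul, t0, t1, t2, zpow_one]; field_simp
      · rw [map_mul, map_mul, map_mul, norm_mul, norm_mul, norm_mul, b2]
        have mu : ∀ u v : ℝ, 1 < u → 1 < v → 1 < u * v := fun u v hu hv => by nlinarith
        exact (mu _ _ (mu _ _ (mu _ _ b0 b0) b1) b1).ne'
  obtain ⟨x, y, nt, ρ, rel⟩ := lattice ι (by omega) σ τ hτ d0 h0 h1 h2 h3 hd hs h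
  have e0 : e ≠ 0 := h0 ▸ (map_ne_zero σ).2 d0
  have key := fun a b c => sol_of ι hm hζ θ0 hp hz (mul_mem (zpow_mem dm x) (zpow_mem em y))
    (mul_ne_zero (zpow_ne_zero x d0) (zpow_ne_zero y e0)) nt (a := a) (b := b) (c := c)
  exact ⟨key a b c 1 ρ τ rel, key c a b τ 1 ρ (by rw [← rel, AlgEquiv.one_apply]; ring),
    key b c a ρ τ 1 (by rw [← rel, AlgEquiv.one_apply]; ring)⟩

theorem build (cj : ℂ ≃ₐ[F] ℂ) (hcj : ∀ z, cj z = starRingEnd ℂ z)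
    (hirr : ∀ m, 0 < m → Irreducible (X ^ m - C 2 : F[X])) {a b c s : ℤ} (hs : |s| ≤ 2)
    (h : a ^ 2 + b ^ 2 + s * a * b = c ^ 2) : Sol F a b c ∧ Sol F c a b ∧ Sol F b c a := by
  obtain ⟨t, n, hn, hs'⟩ : ∃ (t : ℤ) (n : ℕ), (t = 0 ∧ n = 2 ∨ t = 1 ∧ n = 3) ∧
      (t = 0 ∧ s = 0 ∨ t = 1 ∧ (s = 2 ∨ s = 1 ∨ s = -1 ∨ s = -2)) := by
    have := abs_le.1 hs
    by_cases e : s = 0
    exacts [⟨0, 2, by simp, by simp [e]⟩, ⟨1, 3, by simp, by omega⟩]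
  have hm : 0 < 2 * n := by omega
  have hz := Complex.isPrimitiveRoot_exp (2 * n) hm.ne'
  obtain ⟨r, r0, hr⟩ : ∃ r : ℝ, 0 < r ∧ (r : ℂ) ^ (2 * n) = 2 :=
    ⟨(2 : ℝ) ^ (((2 * n : ℕ) : ℝ)⁻¹), by positivity, by
      rw [← Complex.ofReal_pow, Real.rpow_inv_natCast_pow (by norm_num) hm.ne']; norm_num⟩
  have mem : ∀ (z : ℂ) (k : ℕ), z ^ (2 * n) = k → z ∈ algebraicClosure F ℂ := fun z k e =>
    mem_algebraicClosure_iff'.2 (IsIntegral.of_pow hm (e ▸ isIntegral_natCast k))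
  refine kummer (K := algebraicClosure F ℂ) (algebraicClosure F ℂ).val
    (cj.restrictNormal (algebraicClosure F ℂ))
    (fun x => (cj.restrictNormal_commutes (algebraicClosure F ℂ) x).trans (hcj _))
    (ζ := ⟨_, mem _ 1 (by rw [hz.pow_eq_one]; simp)⟩) (θ := ⟨r, mem _ 2 (by rw [hr]; simp)⟩) hn
    (IsPrimitiveRoot.of_map_of_injective (f := (algebraicClosure F ℂ).val) hz
      Subtype.val_injective) (Subtype.ext hr) r r0 rfl (hirr _ hm) hs' h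

theorem irr_two (m : ℕ) (hm : 0 < m) : Irreducible (X ^ m - C 2 : ℚ[X]) := by
  have mo : (X ^ m - C 2 : ℤ[X]).Monic := monic_X_pow_sub_C _ hm.ne'
  have h : Irreducible (X ^ m - C 2 : ℤ[X]) := by
    refine irreducible_of_eisenstein_criterion (P := Ideal.span {2})
      ((Ideal.span_singleton_prime two_ne_zero).2 Int.prime_two) ?_ ?_ ?_ ?_ mo.isPrimitive
    · rw [mo.leadingCoeff, Ideal.mem_span_singleton]; norm_num
    · intro k hk
      rw [degree_X_pow_sub_C hm] at hk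
      have hk' : k ≠ m := by rintro rfl; exact lt_irrefl _ hk
      rw [Ideal.mem_span_singleton, coeff_sub, coeff_X_pow, if_neg hk', coeff_C]
      split_ifs <;> norm_num
    · rw [degree_X_pow_sub_C hm]; exact_mod_cast hm
    · rw [Ideal.span_singleton_pow, Ideal.mem_span_singleton, coeff_sub, coeff_X_pow,
        if_neg hm.ne, coeff_C]
      norm_num
  have := (mo.irreducible_iff_irreducible_map_fraction_map (K := ℚ)).1 h
  simpa [map_ofNat] using this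

end Pool.Agent.Lib.MP_e29efe_nt
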