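import Mathlib

/-! Class sums of a vanishing sum of roots of unity (the descent step of Mann). -/

set_option autoImplicit false

namespace Pool.Agent.Lib.MP_e29efe_nt

open Polynomial Finset

theorem conj_sum {ι : Type} [Fintype ι] {N m : ℕ} {z : ℂ} (hN : 0 < N) (hz : IsPrimitiveRoot z N)
    (c : ι → ℤ) (k : ι → ℕ) (h : ∑ i, (c i : ℂ) * z ^ k i = 0) (hm : Nat.Coprime m N) :
    ∑ i, (c i : ℂ) * (z ^ m) ^ k i = 0 := by
  have e : ∀ y : ℂ, aeval y (∑ i, C (c i) * X ^ k i : ℤ[X]) = ∑ i, (c i : ℂ) * y ^ k i := by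
    intro y; simp
  obtain ⟨q, hq⟩ := minpoly.isIntegrallyClosed_dvd (hz.isIntegral hN) ((e z).trans h)
  have h2 : aeval (z ^ m) (minpoly ℤ z) = 0 := by
    rw [hz.minpoly_eq_pow_coprime hm]; exact minpoly.aeval ℤ _
  rw [← e, hq, map_mul, h2, zero_mul]

theorem geo {p n : ℕ} {w : ℂ} (hw : IsPrimitiveRoot w p) :
    ∑ j ∈ range p, (w ^ n) ^ j = if p ∣ n then (p : ℂ) else 0 := by
  split_ifs with h
  · rw [(hw.pow_eq_one_iff_dvd n).2 h]; simp
  · have h1 : w ^ n - 1 ≠ 0 := sub_ne_zero.2 fun e => h ((hw.pow_eq_one_iff_dvd n).1 e)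
    refine (mul_eq_zero.1 ?_).resolve_right h1
    rw [geom_sum_mul, ← pow_mul, mul_comm, pow_mul, hw.pow_eq_one, one_pow, sub_self]

theorem mann {ι : Type} [Fintype ι] {p M : ℕ} (hp : p.Prime) (hM : 0 < M) {z : ℂ}
    (hz : IsPrimitiveRoot z (M * p)) (c : ι → ℤ) (k : ι → ℕ) (h : ∑ i, (c i : ℂ) * z ^ k i = 0) :
    ∃ L : ℝ, (p ∣ M → L = 0) ∧
      ∀ t : ℕ, ‖∑ i, if p ∣ k i + t then (c i : ℂ) * z ^ k i else 0‖ = L := by
  have hN : 0 < M * p := Nat.mul_pos hM hp.pos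
  have hw : IsPrimitiveRoot (z ^ M) p := hz.pow hN rfl
  set w := z ^ M with hwd
  let F : ℕ → ℂ := fun j => ∑ i, (c i : ℂ) * (z ^ (1 + j * M)) ^ k i
  have hF : ∀ j, ¬ p ∣ 1 + j * M → F j = 0 := fun j hj =>
    conj_sum hN hz c k h (Nat.Coprime.mul_right (by simp)
      ((Nat.Prime.coprime_iff_not_dvd hp).2 hj).symm)
  have key : ∀ t : ℕ, (p : ℂ) * ∑ i, (if p ∣ k i + t then (c i : ℂ) * z ^ k i else 0) =
      ∑ j ∈ range p, F j * w ^ (j * t) := by
    intro t
    simp only [F, sum_mul, mul_sum]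
    rw [sum_comm]
    refine sum_congr rfl fun i _ => ?_
    have e : ∀ j ∈ range p, (c i : ℂ) * (z ^ (1 + j * M)) ^ k i * w ^ (j * t) =
        (c i : ℂ) * z ^ k i * (w ^ (k i + t)) ^ j := fun j _ => by rw [hwd]; ring
    rw [sum_congr rfl e, ← mul_sum, geo hw]
    split_ifs <;> ring
  have p0 : (0 : ℝ) < p := by exact_mod_cast hp.pos
  have n1 : ‖w‖ = 1 := Complex.norm_eq_one_of_pow_eq_one hw.pow_eq_one hp.ne_zero
  by_cases hex : ∃ j < p, p ∣ 1 + j * M
  · obtain ⟨j0, hj0, hd⟩ := hex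
    have hpM : ¬ p ∣ M := fun e =>
      hp.one_lt.ne' (Nat.dvd_one.1 ((Nat.dvd_add_left (e.mul_left j0)).1 hd))
    refine ⟨‖F j0‖ / p, fun e => absurd e hpM, fun t => ?_⟩
    have e := key t
    rw [sum_eq_single j0 (fun j hj hne => ?_) (fun hn => absurd (mem_range.2 hj0) hn)] at e
    · have := congrArg norm e
      rw [norm_mul, norm_mul, norm_pow, n1, one_pow, mul_one, Complex.norm_natCast] at this
      rw [eq_div_iff p0.ne', mul_comm, this]
    · rw [hF j fun hd' => hne ?_, zero_mul]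
      have m1 : 1 + j * M ≡ 1 + j0 * M [MOD p] :=
        ((Nat.modEq_zero_iff_dvd).2 hd').trans ((Nat.modEq_zero_iff_dvd).2 hd).symm
      have m2 := (Nat.ModEq.add_left_cancel' 1 m1).cancel_right_of_coprime
        ((Nat.Prime.coprime_iff_not_dvd hp).2 hpM)
      exact Nat.ModEq.eq_of_lt_of_lt m2 (mem_range.1 hj) hj0
  · refine ⟨0, fun _ => rfl, fun t => ?_⟩
    have e := key t
    rw [sum_eq_zero (s := range p) fun j hj => by
      rw [hF j fun hd => hex ⟨j, mem_range.1 hj, hd⟩, zero_mul]] at e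
    rw [(mul_eq_zero.1 e).resolve_left (by exact_mod_cast hp.ne_zero), norm_zero]

/-- five terms: the class of zero vanishes, or all terms have one absolute value -/
theorem mann5 {p M : ℕ} (hp : p.Prime) (hM : 0 < M) (h5 : p ∣ M ∨ 5 ≤ p) {z : ℂ}
    (hz : IsPrimitiveRoot z (M * p)) (c : Fin 5 → ℤ) (k : Fin 5 → ℕ)
    (h : ∑ i, (c i : ℂ) * z ^ k i = 0) :
    (∑ i, if p ∣ k i then (c i : ℂ) * z ^ k i else 0) = 0 ∨ ∀ i j, |c i| = |c j| := by
  obtain ⟨L, h1, h2⟩ := mann hp hM hz c k h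
  by_cases hL : L = 0
  · left
    have := h2 0
    simpa only [hL, add_zero, norm_eq_zero] using this
  right
  have p5 : 5 ≤ p := h5.resolve_left fun e => hL (h1 e)
  have ex : ∀ t : Fin 5, ∃ i, p ∣ k i + t := fun t => by
    by_contra hc
    push Not at hc
    exact hL (by rw [← h2 t, sum_eq_zero fun i _ => if_neg (hc i), norm_zero])
  choose φ hφ using ex
  have uq : ∀ (i : Fin 5) (t t' : Fin 5), p ∣ k i + t → p ∣ k i + t' → t = t' := by
    intro i t t' a b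
    have m1 : k i + t ≡ k i + t' [MOD p] :=
      ((Nat.modEq_zero_iff_dvd).2 a).trans ((Nat.modEq_zero_iff_dvd).2 b).symm
    exact Fin.ext (Nat.ModEq.eq_of_lt_of_lt (Nat.ModEq.add_left_cancel' _ m1)
      (t.2.trans_le p5) (t'.2.trans_le p5))
  have sj : Function.Surjective φ :=
    Finite.surjective_of_injective fun t t' e => uq (φ t) t t' (hφ t) (e ▸ hφ t')
  have n1 : ‖z‖ = 1 :=
    Complex.norm_eq_one_of_pow_eq_one hz.pow_eq_one (Nat.mul_pos hM hp.pos).ne'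
  have one : ∀ i, ((|c i| : ℤ) : ℝ) = L := fun i => by
    obtain ⟨t, rfl⟩ := sj i
    have := h2 t
    rw [sum_eq_single (φ t) (fun i' _ hne => if_neg fun hd => ?_) (by simp), if_pos (hφ t),
      norm_mul, norm_pow, n1, one_pow, mul_one, Complex.norm_intCast] at this
    · rw [← this, Int.cast_abs]
    · obtain ⟨t', rfl⟩ := sj i'
      exact hne (congrArg φ (uq _ _ _ (hφ t') hd))
  intro i j
  exact_mod_cast (one i).trans (one j).symm

end Pool.Agent.Lib.MP_e29efe_nt
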