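import Mathlib

/-! The equation `(a + b u) (a + b v) = D w` in sixth roots of unity, in coordinates. -/

set_option autoImplicit false

namespace Pool.Agent.Lib.MP_e29efe_nt

theorem golden {a b s : ℤ} (hs : s ^ 2 = 1) (h : a ^ 2 + s * a * b - b ^ 2 = 0) (hb : b ≠ 0) :
    False := by
  have e : (2 * a + s * b) ^ 2 = 5 * b ^ 2 := by linear_combination 4 * h + b ^ 2 * hs
  have e2 : IsSquare ((5 : ℚ)) := by
    have hb' : (b : ℚ) ≠ 0 := by exact_mod_cast hb
    refine ⟨(2 * a + s * b) / b, ?_⟩
    have e3 : ((2 * a + s * b : ℚ)) ^ 2 = 5 * (b : ℚ) ^ 2 := by exact_mod_cast e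
    field_simp
    linear_combination -e3
  exact Nat.prime_five.prime.not_isSquare (Rat.isSquare_natCast_iff.1 (by exact_mod_cast e2))

theorem six_int {a b D x1 y1 x2 y2 x3 y3 : ℤ} (ha : a ≠ 0) (hb : b ≠ 0) (hD : D ≠ 0)
    (h1 : x1 = 1 ∧ y1 = 0 ∨ x1 = -1 ∧ y1 = 0 ∨ x1 = 0 ∧ y1 = 1 ∨ x1 = 0 ∧ y1 = -1 ∨
      x1 = -1 ∧ y1 = -1 ∨ x1 = 1 ∧ y1 = 1)
    (h2 : x2 = 1 ∧ y2 = 0 ∨ x2 = -1 ∧ y2 = 0 ∨ x2 = 0 ∧ y2 = 1 ∨ x2 = 0 ∧ y2 = -1 ∨
      x2 = -1 ∧ y2 = -1 ∨ x2 = 1 ∧ y2 = 1)
    (h3 : x3 = 1 ∧ y3 = 0 ∨ x3 = 0 ∧ y3 = 1 ∨ x3 = -1 ∧ y3 = -1)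
    (E1 : (a + b * x1) * (a + b * x2) - b ^ 2 * y1 * y2 = D * x3)
    (E2 : (a + b * x1) * b * y2 + (a + b * x2) * b * y1 - b ^ 2 * y1 * y2 = D * y3) :
    (∃ s : ℤ, |s| ≤ 2 ∧ (a ^ 2 + b ^ 2 + s * a * b) ^ 2 = D ^ 2) ∨ (a ^ 2 - b ^ 2) ^ 2 = D ^ 2 := by
  have n3 : x3 ^ 2 - x3 * y3 + y3 ^ 2 = 1 := by
    rcases h3 with ⟨rfl, rfl⟩ | ⟨rfl, rfl⟩ | ⟨rfl, rfl⟩ <;> norm_num
  have hN : ((a + b * x1) ^ 2 - (a + b * x1) * (b * y1) + (b * y1) ^ 2) *
      ((a + b * x2) ^ 2 - (a + b * x2) * (b * y2) + (b * y2) ^ 2) = D ^ 2 := by
    have e : ∀ u v u' v' : ℤ, u = u' → v = v' → u ^ 2 - u * v + v ^ 2 = u' ^ 2 - u' * v' + v' ^ 2 := by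
      rintro _ _ _ _ rfl rfl; rfl
    linear_combination e _ _ _ _ E1 E2 + D ^ 2 * n3
  have df : ∀ s : ℤ, s ^ 2 ≤ 1 → a ^ 2 + s * a * b + b ^ 2 = 0 → False := fun s hs h => by
    have h0 : 0 < b ^ 2 := by positivity
    nlinarith [sq_nonneg (2 * a + s * b), mul_le_mul_of_nonneg_right hs h0.le]
  have gd : ∀ s : ℤ, s ^ 2 = 1 → a ^ 2 + s * a * b - b ^ 2 = 0 → False :=
    fun s hs h => golden hs h hb
  clear n3
  rcases h1 with ⟨rfl, rfl⟩ | ⟨rfl, rfl⟩ | ⟨rfl, rfl⟩ | ⟨rfl, rfl⟩ | ⟨rfl, rfl⟩ | ⟨rfl, rfl⟩ <;>
  rcases h2 with ⟨rfl, rfl⟩ | ⟨rfl, rfl⟩ | ⟨rfl, rfl⟩ | ⟨rfl, rfl⟩ | ⟨rfl, rfl⟩ | ⟨rfl, rfl⟩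
  · exact Or.inl ⟨2, by norm_num, by linear_combination hN⟩
  · exact Or.inr (by linear_combination hN)
  · rcases h3 with ⟨rfl, rfl⟩ | ⟨rfl, rfl⟩ | ⟨rfl, rfl⟩
    · have q : 1 * (((0) * a + (1) * b) * ((1) * a + (1) * b)) = 0 := by
        linear_combination (-1) * ((0) * E1 - (1) * E2)
      rcases mul_eq_zero.1 ((mul_eq_zero.1 q).resolve_left (by norm_num)) with h | h
      · exact absurd (by linarith) hb
      · obtain rfl : a = (-1) * b := by linarith
        exact absurd (by linear_combination -((1) * E1)) hD
    · have q : 1 * (((1) * a + (0) * b) * ((1) * a + (1) * b)) = 0 := by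
        linear_combination (1) * ((1) * E1 - (0) * E2)
      rcases mul_eq_zero.1 ((mul_eq_zero.1 q).resolve_left (by norm_num)) with h | h
      · exact absurd (by linarith) ha
      · obtain rfl : a = (-1) * b := by linarith
        exact absurd (by linear_combination -((1) * E2)) hD
    · have q : 1 * (((1) * a + (-1) * b) * ((1) * a + (1) * b)) = 0 := by
        linear_combination (-1) * ((-1) * E1 - (-1) * E2)
      rcases mul_eq_zero.1 ((mul_eq_zero.1 q).resolve_left (by norm_num)) with h | h
      · obtain rfl : a = (1) * b := by linarith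
        obtain rfl : D = (-2) * b ^ 2 := by linear_combination -((-1) * E1)
        exact Or.inl ⟨0, by norm_num, by ring⟩
      · obtain rfl : a = (-1) * b := by linarith
        exact absurd (by linear_combination -((-1) * E1)) hD
  · rcases h3 with ⟨rfl, rfl⟩ | ⟨rfl, rfl⟩ | ⟨rfl, rfl⟩
    · have q : 1 * (((0) * a + (1) * b) * ((1) * a + (1) * b)) = 0 := by
        linear_combination (1) * ((0) * E1 - (1) * E2)
      rcases mul_eq_zero.1 ((mul_eq_zero.1 q).resolve_left (by norm_num)) with h | h
      · exact absurd (by linarith) hb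
      · obtain rfl : a = (-1) * b := by linarith
        exact absurd (by linear_combination -((1) * E1)) hD
    · have q : 1 * (((1) * a + (0) * b) * ((1) * a + (1) * b)) = 0 := by
        linear_combination (1) * ((1) * E1 - (0) * E2)
      rcases mul_eq_zero.1 ((mul_eq_zero.1 q).resolve_left (by norm_num)) with h | h
      · exact absurd (by linarith) ha
      · obtain rfl : a = (-1) * b := by linarith
        exact absurd (by linear_combination -((1) * E2)) hD
    · have q : 1 * (((1) * a + (1) * b) * ((1) * a + (1) * b)) = 0 := by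
        linear_combination (-1) * ((-1) * E1 - (-1) * E2)
      rcases mul_eq_zero.1 ((mul_eq_zero.1 q).resolve_left (by norm_num)) with h | h
      · obtain rfl : a = (-1) * b := by linarith
        exact absurd (by linear_combination -((-1) * E1)) hD
      · obtain rfl : a = (-1) * b := by linarith
        exact absurd (by linear_combination -((-1) * E1)) hD
  · rcases h3 with ⟨rfl, rfl⟩ | ⟨rfl, rfl⟩ | ⟨rfl, rfl⟩
    · have q : 1 * (((0) * a + (1) * b) * ((1) * a + (1) * b)) = 0 := by
        linear_combination (1) * ((0) * E1 - (1) * E2)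
      rcases mul_eq_zero.1 ((mul_eq_zero.1 q).resolve_left (by norm_num)) with h | h
      · exact absurd (by linarith) hb
      · obtain rfl : a = (-1) * b := by linarith
        exact absurd (by linear_combination -((1) * E1)) hD
    · have q : 1 * (((1) * a + (-1) * b) * ((1) * a + (1) * b)) = 0 := by
        linear_combination (1) * ((1) * E1 - (0) * E2)
      rcases mul_eq_zero.1 ((mul_eq_zero.1 q).resolve_left (by norm_num)) with h | h
      · obtain rfl : a = (1) * b := by linarith
        obtain rfl : D = (-2) * b ^ 2 := by linear_combination -((1) * E2)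
        exact Or.inl ⟨0, by norm_num, by ring⟩
      · obtain rfl : a = (-1) * b := by linarith
        exact absurd (by linear_combination -((1) * E2)) hD
    · have q : 1 * (((1) * a + (0) * b) * ((1) * a + (1) * b)) = 0 := by
        linear_combination (-1) * ((-1) * E1 - (-1) * E2)
      rcases mul_eq_zero.1 ((mul_eq_zero.1 q).resolve_left (by norm_num)) with h | h
      · exact absurd (by linarith) ha
      · obtain rfl : a = (-1) * b := by linarith
        exact absurd (by linear_combination -((-1) * E1)) hD
  · rcases h3 with ⟨rfl, rfl⟩ | ⟨rfl, rfl⟩ | ⟨rfl, rfl⟩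
    · have q : 1 * (((0) * a + (1) * b) * ((1) * a + (1) * b)) = 0 := by
        linear_combination (-1) * ((0) * E1 - (1) * E2)
      rcases mul_eq_zero.1 ((mul_eq_zero.1 q).resolve_left (by norm_num)) with h | h
      · exact absurd (by linarith) hb
      · obtain rfl : a = (-1) * b := by linarith
        exact absurd (by linear_combination -((1) * E1)) hD
    · have q : 1 * (((1) * a + (1) * b) * ((1) * a + (1) * b)) = 0 := by
        linear_combination (1) * ((1) * E1 - (0) * E2)
      rcases mul_eq_zero.1 ((mul_eq_zero.1 q).resolve_left (by norm_num)) with h | h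
      · obtain rfl : a = (-1) * b := by linarith
        exact absurd (by linear_combination -((1) * E2)) hD
      · obtain rfl : a = (-1) * b := by linarith
        exact absurd (by linear_combination -((1) * E2)) hD
    · have q : 1 * (((1) * a + (0) * b) * ((1) * a + (1) * b)) = 0 := by
        linear_combination (-1) * ((-1) * E1 - (-1) * E2)
      rcases mul_eq_zero.1 ((mul_eq_zero.1 q).resolve_left (by norm_num)) with h | h
      · exact absurd (by linarith) ha
      · obtain rfl : a = (-1) * b := by linarith
        exact absurd (by linear_combination -((-1) * E1)) hD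
  · exact Or.inr (by linear_combination hN)
  · exact Or.inl ⟨-2, by norm_num, by linear_combination hN⟩
  · rcases h3 with ⟨rfl, rfl⟩ | ⟨rfl, rfl⟩ | ⟨rfl, rfl⟩
    · have q : 1 * (((0) * a + (1) * b) * ((1) * a + (-1) * b)) = 0 := by
        linear_combination (-1) * ((0) * E1 - (1) * E2)
      rcases mul_eq_zero.1 ((mul_eq_zero.1 q).resolve_left (by norm_num)) with h | h
      · exact absurd (by linarith) hb
      · obtain rfl : a = (1) * b := by linarith
        exact absurd (by linear_combination -((1) * E1)) hD
    · have q : 1 * (((1) * a + (0) * b) * ((1) * a + (-1) * b)) = 0 := by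
        linear_combination (1) * ((1) * E1 - (0) * E2)
      rcases mul_eq_zero.1 ((mul_eq_zero.1 q).resolve_left (by norm_num)) with h | h
      · exact absurd (by linarith) ha
      · obtain rfl : a = (1) * b := by linarith
        exact absurd (by linear_combination -((1) * E2)) hD
    · have q : 1 * (((1) * a + (-1) * b) * ((1) * a + (-1) * b)) = 0 := by
        linear_combination (-1) * ((-1) * E1 - (-1) * E2)
      rcases mul_eq_zero.1 ((mul_eq_zero.1 q).resolve_left (by norm_num)) with h | h
      · obtain rfl : a = (1) * b := by linarith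
        exact absurd (by linear_combination -((-1) * E1)) hD
      · obtain rfl : a = (1) * b := by linarith
        exact absurd (by linear_combination -((-1) * E1)) hD
  · rcases h3 with ⟨rfl, rfl⟩ | ⟨rfl, rfl⟩ | ⟨rfl, rfl⟩
    · have q : 1 * (((0) * a + (1) * b) * ((1) * a + (-1) * b)) = 0 := by
        linear_combination (1) * ((0) * E1 - (1) * E2)
      rcases mul_eq_zero.1 ((mul_eq_zero.1 q).resolve_left (by norm_num)) with h | h
      · exact absurd (by linarith) hb
      · obtain rfl : a = (1) * b := by linarith
        exact absurd (by linear_combination -((1) * E1)) hD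
    · have q : 1 * (((1) * a + (0) * b) * ((1) * a + (-1) * b)) = 0 := by
        linear_combination (1) * ((1) * E1 - (0) * E2)
      rcases mul_eq_zero.1 ((mul_eq_zero.1 q).resolve_left (by norm_num)) with h | h
      · exact absurd (by linarith) ha
      · obtain rfl : a = (1) * b := by linarith
        exact absurd (by linear_combination -((1) * E2)) hD
    · have q : 1 * (((1) * a + (-1) * b) * ((1) * a + (1) * b)) = 0 := by
        linear_combination (-1) * ((-1) * E1 - (-1) * E2)
      rcases mul_eq_zero.1 ((mul_eq_zero.1 q).resolve_left (by norm_num)) with h | h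
      · obtain rfl : a = (1) * b := by linarith
        exact absurd (by linear_combination -((-1) * E1)) hD
      · obtain rfl : a = (-1) * b := by linarith
        obtain rfl : D = (-2) * b ^ 2 := by linear_combination -((-1) * E1)
        exact Or.inl ⟨0, by norm_num, by ring⟩
  · rcases h3 with ⟨rfl, rfl⟩ | ⟨rfl, rfl⟩ | ⟨rfl, rfl⟩
    · have q : 1 * (((0) * a + (1) * b) * ((1) * a + (-1) * b)) = 0 := by
        linear_combination (1) * ((0) * E1 - (1) * E2)
      rcases mul_eq_zero.1 ((mul_eq_zero.1 q).resolve_left (by norm_num)) with h | h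
      · exact absurd (by linarith) hb
      · obtain rfl : a = (1) * b := by linarith
        exact absurd (by linear_combination -((1) * E1)) hD
    · have q : 1 * (((1) * a + (-1) * b) * ((1) * a + (-1) * b)) = 0 := by
        linear_combination (1) * ((1) * E1 - (0) * E2)
      rcases mul_eq_zero.1 ((mul_eq_zero.1 q).resolve_left (by norm_num)) with h | h
      · obtain rfl : a = (1) * b := by linarith
        exact absurd (by linear_combination -((1) * E2)) hD
      · obtain rfl : a = (1) * b := by linarith
        exact absurd (by linear_combination -((1) * E2)) hD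
    · have q : 1 * (((1) * a + (0) * b) * ((1) * a + (-1) * b)) = 0 := by
        linear_combination (-1) * ((-1) * E1 - (-1) * E2)
      rcases mul_eq_zero.1 ((mul_eq_zero.1 q).resolve_left (by norm_num)) with h | h
      · exact absurd (by linarith) ha
      · obtain rfl : a = (1) * b := by linarith
        exact absurd (by linear_combination -((-1) * E1)) hD
  · rcases h3 with ⟨rfl, rfl⟩ | ⟨rfl, rfl⟩ | ⟨rfl, rfl⟩
    · have q : 1 * (((0) * a + (1) * b) * ((1) * a + (-1) * b)) = 0 := by
        linear_combination (-1) * ((0) * E1 - (1) * E2)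
      rcases mul_eq_zero.1 ((mul_eq_zero.1 q).resolve_left (by norm_num)) with h | h
      · exact absurd (by linarith) hb
      · obtain rfl : a = (1) * b := by linarith
        exact absurd (by linear_combination -((1) * E1)) hD
    · have q : 1 * (((1) * a + (-1) * b) * ((1) * a + (1) * b)) = 0 := by
        linear_combination (1) * ((1) * E1 - (0) * E2)
      rcases mul_eq_zero.1 ((mul_eq_zero.1 q).resolve_left (by norm_num)) with h | h
      · obtain rfl : a = (1) * b := by linarith
        exact absurd (by linear_combination -((1) * E2)) hD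
      · obtain rfl : a = (-1) * b := by linarith
        obtain rfl : D = (-2) * b ^ 2 := by linear_combination -((1) * E2)
        exact Or.inl ⟨0, by norm_num, by ring⟩
    · have q : 1 * (((1) * a + (0) * b) * ((1) * a + (-1) * b)) = 0 := by
        linear_combination (-1) * ((-1) * E1 - (-1) * E2)
      rcases mul_eq_zero.1 ((mul_eq_zero.1 q).resolve_left (by norm_num)) with h | h
      · exact absurd (by linarith) ha
      · obtain rfl : a = (1) * b := by linarith
        exact absurd (by linear_combination -((-1) * E1)) hD
  · rcases h3 with ⟨rfl, rfl⟩ | ⟨rfl, rfl⟩ | ⟨rfl, rfl⟩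
    · have q : 1 * (((0) * a + (1) * b) * ((1) * a + (1) * b)) = 0 := by
        linear_combination (-1) * ((0) * E1 - (1) * E2)
      rcases mul_eq_zero.1 ((mul_eq_zero.1 q).resolve_left (by norm_num)) with h | h
      · exact absurd (by linarith) hb
      · obtain rfl : a = (-1) * b := by linarith
        exact absurd (by linear_combination -((1) * E1)) hD
    · have q : 1 * (((1) * a + (0) * b) * ((1) * a + (1) * b)) = 0 := by
        linear_combination (1) * ((1) * E1 - (0) * E2)
      rcases mul_eq_zero.1 ((mul_eq_zero.1 q).resolve_left (by norm_num)) with h | h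
      · exact absurd (by linarith) ha
      · obtain rfl : a = (-1) * b := by linarith
        exact absurd (by linear_combination -((1) * E2)) hD
    · have q : 1 * (((1) * a + (-1) * b) * ((1) * a + (1) * b)) = 0 := by
        linear_combination (-1) * ((-1) * E1 - (-1) * E2)
      rcases mul_eq_zero.1 ((mul_eq_zero.1 q).resolve_left (by norm_num)) with h | h
      · obtain rfl : a = (1) * b := by linarith
        obtain rfl : D = (-2) * b ^ 2 := by linear_combination -((-1) * E1)
        exact Or.inl ⟨0, by norm_num, by ring⟩
      · obtain rfl : a = (-1) * b := by linarith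
        exact absurd (by linear_combination -((-1) * E1)) hD
  · rcases h3 with ⟨rfl, rfl⟩ | ⟨rfl, rfl⟩ | ⟨rfl, rfl⟩
    · have q : 1 * (((0) * a + (1) * b) * ((1) * a + (-1) * b)) = 0 := by
        linear_combination (-1) * ((0) * E1 - (1) * E2)
      rcases mul_eq_zero.1 ((mul_eq_zero.1 q).resolve_left (by norm_num)) with h | h
      · exact absurd (by linarith) hb
      · obtain rfl : a = (1) * b := by linarith
        exact absurd (by linear_combination -((1) * E1)) hD
    · have q : 1 * (((1) * a + (0) * b) * ((1) * a + (-1) * b)) = 0 := by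
        linear_combination (1) * ((1) * E1 - (0) * E2)
      rcases mul_eq_zero.1 ((mul_eq_zero.1 q).resolve_left (by norm_num)) with h | h
      · exact absurd (by linarith) ha
      · obtain rfl : a = (1) * b := by linarith
        exact absurd (by linear_combination -((1) * E2)) hD
    · have q : 1 * (((1) * a + (-1) * b) * ((1) * a + (-1) * b)) = 0 := by
        linear_combination (-1) * ((-1) * E1 - (-1) * E2)
      rcases mul_eq_zero.1 ((mul_eq_zero.1 q).resolve_left (by norm_num)) with h | h
      · obtain rfl : a = (1) * b := by linarith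
        exact absurd (by linear_combination -((-1) * E1)) hD
      · obtain rfl : a = (1) * b := by linarith
        exact absurd (by linear_combination -((-1) * E1)) hD
  · exact Or.inl ⟨-1, by norm_num, by linear_combination hN⟩
  · rcases h3 with ⟨rfl, rfl⟩ | ⟨rfl, rfl⟩ | ⟨rfl, rfl⟩
    · have q : 1 * (((0) * a + (1) * b) * ((0) * a + (1) * b)) = 0 := by
        linear_combination (-1) * ((0) * E1 - (1) * E2)
      rcases mul_eq_zero.1 ((mul_eq_zero.1 q).resolve_left (by norm_num)) with h | h
      · exact absurd (by linarith) hb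
      · exact absurd (by linarith) hb
    · exact (df (0) (by norm_num) (by linear_combination (1) * ((1) * E1 - (0) * E2))).elim
    · have q : 1 * (((1) * a + (0) * b) * ((1) * a + (0) * b)) = 0 := by
        linear_combination (-1) * ((-1) * E1 - (-1) * E2)
      rcases mul_eq_zero.1 ((mul_eq_zero.1 q).resolve_left (by norm_num)) with h | h
      · exact absurd (by linarith) ha
      · exact absurd (by linarith) ha
  · exact Or.inl ⟨-1, by norm_num, by linear_combination hN⟩
  · rcases h3 with ⟨rfl, rfl⟩ | ⟨rfl, rfl⟩ | ⟨rfl, rfl⟩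
    · have q : 2 * (((1) * a + (0) * b) * ((0) * a + (1) * b)) = 0 := by
        linear_combination (-1) * ((0) * E1 - (1) * E2)
      rcases mul_eq_zero.1 ((mul_eq_zero.1 q).resolve_left (by norm_num)) with h | h
      · exact absurd (by linarith) ha
      · exact absurd (by linarith) hb
    · exact (gd (1) (by norm_num) (by linear_combination (1) * ((1) * E1 - (0) * E2))).elim
    · exact (gd (-1) (by norm_num) (by linear_combination (-1) * ((-1) * E1 - (-1) * E2))).elim
  · rcases h3 with ⟨rfl, rfl⟩ | ⟨rfl, rfl⟩ | ⟨rfl, rfl⟩
    · have q : 1 * (((0) * a + (1) * b) * ((1) * a + (1) * b)) = 0 := by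
        linear_combination (1) * ((0) * E1 - (1) * E2)
      rcases mul_eq_zero.1 ((mul_eq_zero.1 q).resolve_left (by norm_num)) with h | h
      · exact absurd (by linarith) hb
      · obtain rfl : a = (-1) * b := by linarith
        exact absurd (by linear_combination -((1) * E1)) hD
    · have q : 1 * (((1) * a + (0) * b) * ((1) * a + (1) * b)) = 0 := by
        linear_combination (1) * ((1) * E1 - (0) * E2)
      rcases mul_eq_zero.1 ((mul_eq_zero.1 q).resolve_left (by norm_num)) with h | h
      · exact absurd (by linarith) ha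
      · obtain rfl : a = (-1) * b := by linarith
        exact absurd (by linear_combination -((1) * E2)) hD
    · have q : 1 * (((1) * a + (1) * b) * ((1) * a + (1) * b)) = 0 := by
        linear_combination (-1) * ((-1) * E1 - (-1) * E2)
      rcases mul_eq_zero.1 ((mul_eq_zero.1 q).resolve_left (by norm_num)) with h | h
      · obtain rfl : a = (-1) * b := by linarith
        exact absurd (by linear_combination -((-1) * E1)) hD
      · obtain rfl : a = (-1) * b := by linarith
        exact absurd (by linear_combination -((-1) * E1)) hD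
  · rcases h3 with ⟨rfl, rfl⟩ | ⟨rfl, rfl⟩ | ⟨rfl, rfl⟩
    · have q : 1 * (((0) * a + (1) * b) * ((1) * a + (-1) * b)) = 0 := by
        linear_combination (1) * ((0) * E1 - (1) * E2)
      rcases mul_eq_zero.1 ((mul_eq_zero.1 q).resolve_left (by norm_num)) with h | h
      · exact absurd (by linarith) hb
      · obtain rfl : a = (1) * b := by linarith
        exact absurd (by linear_combination -((1) * E1)) hD
    · have q : 1 * (((1) * a + (0) * b) * ((1) * a + (-1) * b)) = 0 := by
        linear_combination (1) * ((1) * E1 - (0) * E2)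
      rcases mul_eq_zero.1 ((mul_eq_zero.1 q).resolve_left (by norm_num)) with h | h
      · exact absurd (by linarith) ha
      · obtain rfl : a = (1) * b := by linarith
        exact absurd (by linear_combination -((1) * E2)) hD
    · have q : 1 * (((1) * a + (-1) * b) * ((1) * a + (1) * b)) = 0 := by
        linear_combination (-1) * ((-1) * E1 - (-1) * E2)
      rcases mul_eq_zero.1 ((mul_eq_zero.1 q).resolve_left (by norm_num)) with h | h
      · obtain rfl : a = (1) * b := by linarith
        exact absurd (by linear_combination -((-1) * E1)) hD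
      · obtain rfl : a = (-1) * b := by linarith
        obtain rfl : D = (-2) * b ^ 2 := by linear_combination -((-1) * E1)
        exact Or.inl ⟨0, by norm_num, by ring⟩
  · rcases h3 with ⟨rfl, rfl⟩ | ⟨rfl, rfl⟩ | ⟨rfl, rfl⟩
    · have q : 1 * (((0) * a + (1) * b) * ((0) * a + (1) * b)) = 0 := by
        linear_combination (-1) * ((0) * E1 - (1) * E2)
      rcases mul_eq_zero.1 ((mul_eq_zero.1 q).resolve_left (by norm_num)) with h | h
      · exact absurd (by linarith) hb
      · exact absurd (by linarith) hb
    · exact (df (0) (by norm_num) (by linear_combination (1) * ((1) * E1 - (0) * E2))).elim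
    · have q : 1 * (((1) * a + (0) * b) * ((1) * a + (0) * b)) = 0 := by
        linear_combination (-1) * ((-1) * E1 - (-1) * E2)
      rcases mul_eq_zero.1 ((mul_eq_zero.1 q).resolve_left (by norm_num)) with h | h
      · exact absurd (by linarith) ha
      · exact absurd (by linarith) ha
  · exact Or.inl ⟨1, by norm_num, by linear_combination hN⟩
  · rcases h3 with ⟨rfl, rfl⟩ | ⟨rfl, rfl⟩ | ⟨rfl, rfl⟩
    · have q : 2 * (((1) * a + (0) * b) * ((0) * a + (1) * b)) = 0 := by
        linear_combination (1) * ((0) * E1 - (1) * E2)
      rcases mul_eq_zero.1 ((mul_eq_zero.1 q).resolve_left (by norm_num)) with h | h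
      · exact absurd (by linarith) ha
      · exact absurd (by linarith) hb
    · exact (gd (-1) (by norm_num) (by linear_combination (1) * ((1) * E1 - (0) * E2))).elim
    · exact (gd (1) (by norm_num) (by linear_combination (-1) * ((-1) * E1 - (-1) * E2))).elim
  · exact Or.inl ⟨1, by norm_num, by linear_combination hN⟩
  · rcases h3 with ⟨rfl, rfl⟩ | ⟨rfl, rfl⟩ | ⟨rfl, rfl⟩
    · have q : 1 * (((0) * a + (1) * b) * ((1) * a + (1) * b)) = 0 := by
        linear_combination (1) * ((0) * E1 - (1) * E2)
      rcases mul_eq_zero.1 ((mul_eq_zero.1 q).resolve_left (by norm_num)) with h | h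
      · exact absurd (by linarith) hb
      · obtain rfl : a = (-1) * b := by linarith
        exact absurd (by linear_combination -((1) * E1)) hD
    · have q : 1 * (((1) * a + (-1) * b) * ((1) * a + (1) * b)) = 0 := by
        linear_combination (1) * ((1) * E1 - (0) * E2)
      rcases mul_eq_zero.1 ((mul_eq_zero.1 q).resolve_left (by norm_num)) with h | h
      · obtain rfl : a = (1) * b := by linarith
        obtain rfl : D = (-2) * b ^ 2 := by linear_combination -((1) * E2)
        exact Or.inl ⟨0, by norm_num, by ring⟩
      · obtain rfl : a = (-1) * b := by linarith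
        exact absurd (by linear_combination -((1) * E2)) hD
    · have q : 1 * (((1) * a + (0) * b) * ((1) * a + (1) * b)) = 0 := by
        linear_combination (-1) * ((-1) * E1 - (-1) * E2)
      rcases mul_eq_zero.1 ((mul_eq_zero.1 q).resolve_left (by norm_num)) with h | h
      · exact absurd (by linarith) ha
      · obtain rfl : a = (-1) * b := by linarith
        exact absurd (by linear_combination -((-1) * E1)) hD
  · rcases h3 with ⟨rfl, rfl⟩ | ⟨rfl, rfl⟩ | ⟨rfl, rfl⟩
    · have q : 1 * (((0) * a + (1) * b) * ((1) * a + (-1) * b)) = 0 := by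
        linear_combination (1) * ((0) * E1 - (1) * E2)
      rcases mul_eq_zero.1 ((mul_eq_zero.1 q).resolve_left (by norm_num)) with h | h
      · exact absurd (by linarith) hb
      · obtain rfl : a = (1) * b := by linarith
        exact absurd (by linear_combination -((1) * E1)) hD
    · have q : 1 * (((1) * a + (-1) * b) * ((1) * a + (-1) * b)) = 0 := by
        linear_combination (1) * ((1) * E1 - (0) * E2)
      rcases mul_eq_zero.1 ((mul_eq_zero.1 q).resolve_left (by norm_num)) with h | h
      · obtain rfl : a = (1) * b := by linarith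
        exact absurd (by linear_combination -((1) * E2)) hD
      · obtain rfl : a = (1) * b := by linarith
        exact absurd (by linear_combination -((1) * E2)) hD
    · have q : 1 * (((1) * a + (0) * b) * ((1) * a + (-1) * b)) = 0 := by
        linear_combination (-1) * ((-1) * E1 - (-1) * E2)
      rcases mul_eq_zero.1 ((mul_eq_zero.1 q).resolve_left (by norm_num)) with h | h
      · exact absurd (by linarith) ha
      · obtain rfl : a = (1) * b := by linarith
        exact absurd (by linear_combination -((-1) * E1)) hD
  · exact Or.inl ⟨-1, by norm_num, by linear_combination hN⟩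
  · rcases h3 with ⟨rfl, rfl⟩ | ⟨rfl, rfl⟩ | ⟨rfl, rfl⟩
    · have q : 2 * (((1) * a + (0) * b) * ((0) * a + (1) * b)) = 0 := by
        linear_combination (1) * ((0) * E1 - (1) * E2)
      rcases mul_eq_zero.1 ((mul_eq_zero.1 q).resolve_left (by norm_num)) with h | h
      · exact absurd (by linarith) ha
      · exact absurd (by linarith) hb
    · exact (gd (-1) (by norm_num) (by linear_combination (1) * ((1) * E1 - (0) * E2))).elim
    · exact (gd (1) (by norm_num) (by linear_combination (-1) * ((-1) * E1 - (-1) * E2))).elim
  · exact Or.inl ⟨-1, by norm_num, by linear_combination hN⟩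
  · rcases h3 with ⟨rfl, rfl⟩ | ⟨rfl, rfl⟩ | ⟨rfl, rfl⟩
    · have q : 1 * (((0) * a + (1) * b) * ((0) * a + (1) * b)) = 0 := by
        linear_combination (1) * ((0) * E1 - (1) * E2)
      rcases mul_eq_zero.1 ((mul_eq_zero.1 q).resolve_left (by norm_num)) with h | h
      · exact absurd (by linarith) hb
      · exact absurd (by linarith) hb
    · have q : 1 * (((1) * a + (0) * b) * ((1) * a + (0) * b)) = 0 := by
        linear_combination (1) * ((1) * E1 - (0) * E2)
      rcases mul_eq_zero.1 ((mul_eq_zero.1 q).resolve_left (by norm_num)) with h | h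
      · exact absurd (by linarith) ha
      · exact absurd (by linarith) ha
    · exact (df (0) (by norm_num) (by linear_combination (-1) * ((-1) * E1 - (-1) * E2))).elim
  · rcases h3 with ⟨rfl, rfl⟩ | ⟨rfl, rfl⟩ | ⟨rfl, rfl⟩
    · have q : 1 * (((0) * a + (1) * b) * ((1) * a + (1) * b)) = 0 := by
        linear_combination (-1) * ((0) * E1 - (1) * E2)
      rcases mul_eq_zero.1 ((mul_eq_zero.1 q).resolve_left (by norm_num)) with h | h
      · exact absurd (by linarith) hb
      · obtain rfl : a = (-1) * b := by linarith
        exact absurd (by linear_combination -((1) * E1)) hD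
    · have q : 1 * (((1) * a + (1) * b) * ((1) * a + (1) * b)) = 0 := by
        linear_combination (1) * ((1) * E1 - (0) * E2)
      rcases mul_eq_zero.1 ((mul_eq_zero.1 q).resolve_left (by norm_num)) with h | h
      · obtain rfl : a = (-1) * b := by linarith
        exact absurd (by linear_combination -((1) * E2)) hD
      · obtain rfl : a = (-1) * b := by linarith
        exact absurd (by linear_combination -((1) * E2)) hD
    · have q : 1 * (((1) * a + (0) * b) * ((1) * a + (1) * b)) = 0 := by
        linear_combination (-1) * ((-1) * E1 - (-1) * E2)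
      rcases mul_eq_zero.1 ((mul_eq_zero.1 q).resolve_left (by norm_num)) with h | h
      · exact absurd (by linarith) ha
      · obtain rfl : a = (-1) * b := by linarith
        exact absurd (by linear_combination -((-1) * E1)) hD
  · rcases h3 with ⟨rfl, rfl⟩ | ⟨rfl, rfl⟩ | ⟨rfl, rfl⟩
    · have q : 1 * (((0) * a + (1) * b) * ((1) * a + (-1) * b)) = 0 := by
        linear_combination (-1) * ((0) * E1 - (1) * E2)
      rcases mul_eq_zero.1 ((mul_eq_zero.1 q).resolve_left (by norm_num)) with h | h
      · exact absurd (by linarith) hb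
      · obtain rfl : a = (1) * b := by linarith
        exact absurd (by linear_combination -((1) * E1)) hD
    · have q : 1 * (((1) * a + (-1) * b) * ((1) * a + (1) * b)) = 0 := by
        linear_combination (1) * ((1) * E1 - (0) * E2)
      rcases mul_eq_zero.1 ((mul_eq_zero.1 q).resolve_left (by norm_num)) with h | h
      · obtain rfl : a = (1) * b := by linarith
        exact absurd (by linear_combination -((1) * E2)) hD
      · obtain rfl : a = (-1) * b := by linarith
        obtain rfl : D = (-2) * b ^ 2 := by linear_combination -((1) * E2)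
        exact Or.inl ⟨0, by norm_num, by ring⟩
    · have q : 1 * (((1) * a + (0) * b) * ((1) * a + (-1) * b)) = 0 := by
        linear_combination (-1) * ((-1) * E1 - (-1) * E2)
      rcases mul_eq_zero.1 ((mul_eq_zero.1 q).resolve_left (by norm_num)) with h | h
      · exact absurd (by linarith) ha
      · obtain rfl : a = (1) * b := by linarith
        exact absurd (by linear_combination -((-1) * E1)) hD
  · rcases h3 with ⟨rfl, rfl⟩ | ⟨rfl, rfl⟩ | ⟨rfl, rfl⟩
    · have q : 2 * (((1) * a + (0) * b) * ((0) * a + (1) * b)) = 0 := by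
        linear_combination (-1) * ((0) * E1 - (1) * E2)
      rcases mul_eq_zero.1 ((mul_eq_zero.1 q).resolve_left (by norm_num)) with h | h
      · exact absurd (by linarith) ha
      · exact absurd (by linarith) hb
    · exact (gd (1) (by norm_num) (by linear_combination (1) * ((1) * E1 - (0) * E2))).elim
    · exact (gd (-1) (by norm_num) (by linear_combination (-1) * ((-1) * E1 - (-1) * E2))).elim
  · exact Or.inl ⟨1, by norm_num, by linear_combination hN⟩
  · rcases h3 with ⟨rfl, rfl⟩ | ⟨rfl, rfl⟩ | ⟨rfl, rfl⟩
    · have q : 1 * (((0) * a + (1) * b) * ((0) * a + (1) * b)) = 0 := by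
        linear_combination (1) * ((0) * E1 - (1) * E2)
      rcases mul_eq_zero.1 ((mul_eq_zero.1 q).resolve_left (by norm_num)) with h | h
      · exact absurd (by linarith) hb
      · exact absurd (by linarith) hb
    · have q : 1 * (((1) * a + (0) * b) * ((1) * a + (0) * b)) = 0 := by
        linear_combination (1) * ((1) * E1 - (0) * E2)
      rcases mul_eq_zero.1 ((mul_eq_zero.1 q).resolve_left (by norm_num)) with h | h
      · exact absurd (by linarith) ha
      · exact absurd (by linarith) ha
    · exact (df (0) (by norm_num) (by linear_combination (-1) * ((-1) * E1 - (-1) * E2))).elim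
  · exact Or.inl ⟨1, by norm_num, by linear_combination hN⟩

end Pool.Agent.Lib.MP_e29efe_nt
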