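import Pool.Agent.Lib.MP_e29efe_nt.Side
import Pool.Agent.Lib.MP_e29efe_nt.Mann
import Pool.Agent.Lib.MP_e29efe_nt.Six

/-! The equation `(a + b u) (a + b v) = c ^ 2 w` in roots of unity. -/

set_option autoImplicit false

namespace Pool.Agent.Lib.MP_e29efe_nt

open Finset

/-- the triangle with these sides is degenerate or has an angle of 60, 90 or 120 degrees -/
def Tri (a b c : ℤ) : Prop := ∃ s : ℤ, |s| ≤ 2 ∧ (a ^ 2 + b ^ 2 + s * a * b = c ^ 2 ∨
  b ^ 2 + c ^ 2 + s * b * c = a ^ 2 ∨ c ^ 2 + a ^ 2 + s * c * a = b ^ 2)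

theorem Tri.rot {a b c : ℤ} (h : Tri a b c) : Tri b c a := by
  obtain ⟨s, hs, h | h | h⟩ := h
  exacts [⟨s, hs, .inr (.inr h)⟩, ⟨s, hs, .inl h⟩, ⟨s, hs, .inr (.inl h)⟩]

theorem Tri.swap {a b c : ℤ} (h : Tri a b c) : Tri b a c := by
  obtain ⟨s, hs, h | h | h⟩ := h
  exacts [⟨s, hs, .inl (by linarith)⟩, ⟨s, hs, .inr (.inr (by linarith))⟩,
    ⟨s, hs, .inr (.inl (by linarith))⟩]

theorem Tri.of_abs1 {a b c : ℤ} (h : Tri |a| b c) : Tri a b c := by
  rcases abs_choice a with e | e <;> rw [e] at h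
  · exact h
  obtain ⟨s, hs, h | h | h⟩ := h
  exacts [⟨-s, by rwa [abs_neg], .inl (by linarith)⟩, ⟨s, hs, .inr (.inl (by linarith))⟩,
    ⟨-s, by rwa [abs_neg], .inr (.inr (by linarith))⟩]

theorem Tri.of_abs {a b c : ℤ} (h : Tri |a| |b| |c|) : Tri a b c :=
  h.of_abs1.rot.of_abs1.rot.of_abs1.rot

theorem Tri.of_eq {a b c : ℤ} (h1 : |a| = |b|) (h2 : |b| = |c|) : Tri a b c :=
  Tri.of_abs ⟨-1, by norm_num, .inl (by rw [h1, h2]; ring)⟩

theorem Tri.of_deg {a b c : ℤ} (h : |a| + |b| = |c|) : Tri a b c :=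
  Tri.of_abs ⟨2, by norm_num, .inl (by rw [← h]; ring)⟩

theorem Tri.of_sq {a b c : ℤ} (h : a ^ 2 + b ^ 2 = c ^ 2) : Tri a b c :=
  ⟨0, by norm_num, .inl (by linarith)⟩

theorem abs_eq_of_root {A B : ℤ} {u : ℂ} {N : ℕ} (hN : 0 < N) (hu : u ^ N = 1)
    (h : (A : ℂ) = B * u) : |A| = |B| := by
  have := congrArg norm h
  rw [norm_mul, Complex.norm_eq_one_of_pow_eq_one hu hN.ne', mul_one, Complex.norm_intCast,
    Complex.norm_intCast] at this
  exact_mod_cast this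

theorem sq_abs_eq {a b : ℤ} (h : |a ^ 2| = |b ^ 2|) : |a| = |b| := by
  rw [abs_pow, abs_pow] at h
  exact (pow_left_inj₀ (abs_nonneg a) (abs_nonneg b) two_ne_zero).1 h

theorem six_root {ω u : ℂ} (hω : ω ^ 2 + ω + 1 = 0) (hu : u ^ 6 = 1) : ∃ x y : ℤ,
    (x = 1 ∧ y = 0 ∨ x = -1 ∧ y = 0 ∨ x = 0 ∧ y = 1 ∨ x = 0 ∧ y = -1 ∨
      x = -1 ∧ y = -1 ∨ x = 1 ∧ y = 1) ∧ u = x + y * ω := by
  have e : (u - 1) * ((u + 1) * ((u - ω) * ((u + ω) * ((u + 1 + ω) * (u - 1 - ω))))) = 0 := by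
    linear_combination hu + ((u ^ 2 - 1) * (ω ^ 2 + ω - 1 - 2 * u ^ 2)) * hω
  simp only [mul_eq_zero] at e
  rcases e with e | e | e | e | e | e
  · exact ⟨1, 0, by simp, by push_cast; linear_combination e⟩
  · exact ⟨-1, 0, by simp, by push_cast; linear_combination e⟩
  · exact ⟨0, 1, by simp, by push_cast; linear_combination e⟩
  · exact ⟨0, -1, by simp, by push_cast; linear_combination e⟩
  · exact ⟨-1, -1, by simp, by push_cast; linear_combination e⟩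
  · exact ⟨1, 1, by simp, by push_cast; linear_combination e⟩

theorem six {a b c : ℤ} (ha : a ≠ 0) (hb : b ≠ 0) (hc : c ≠ 0) {u v w : ℂ} (hu : u ^ 6 = 1)
    (hv : v ^ 6 = 1) (hw : w ^ 6 = 1) (h : (a + b * u) * (a + b * v) = (c : ℂ) ^ 2 * w) :
    Tri a b c := by
  obtain ⟨ω, hω⟩ : ∃ ω : ℂ, ω ^ 2 + ω + 1 = 0 := by
    have := (Complex.isPrimitiveRoot_exp 3 (by norm_num)).geom_sum_eq_zero (by norm_num)
    exact ⟨_, by simp only [sum_range_succ, range_zero, sum_empty] at this; linear_combination this⟩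
  obtain ⟨x1, y1, h1, rfl⟩ := six_root hω hu
  obtain ⟨x2, y2, h2, rfl⟩ := six_root hω hv
  obtain ⟨x, y, h3, rfl⟩ := six_root hω hw
  obtain ⟨D, x3, y3, hD, h3, e⟩ : ∃ D x3 y3 : ℤ, D ^ 2 = (c ^ 2) ^ 2 ∧
      (x3 = 1 ∧ y3 = 0 ∨ x3 = 0 ∧ y3 = 1 ∨ x3 = -1 ∧ y3 = -1) ∧
      (c : ℂ) ^ 2 * (x + y * ω) = D * (x3 + y3 * ω) := by
    rcases h3 with ⟨rfl, rfl⟩ | ⟨rfl, rfl⟩ | ⟨rfl, rfl⟩ | ⟨rfl, rfl⟩ | ⟨rfl, rfl⟩ | ⟨rfl, rfl⟩
    exacts [⟨c ^ 2, 1, 0, rfl, by simp, by push_cast; ring⟩,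
      ⟨-c ^ 2, 1, 0, by ring, by simp, by push_cast; ring⟩,
      ⟨c ^ 2, 0, 1, rfl, by simp, by push_cast; ring⟩,
      ⟨-c ^ 2, 0, 1, by ring, by simp, by push_cast; ring⟩,
      ⟨c ^ 2, -1, -1, rfl, by simp, by push_cast; ring⟩,
      ⟨-c ^ 2, -1, -1, by ring, by simp, by push_cast; ring⟩]
  have ind : ∀ P Q : ℤ, (P : ℂ) + Q * ω = 0 → P = 0 ∧ Q = 0 := fun P Q hPQ => by
    have e1 : ((P ^ 2 - P * Q + Q ^ 2 : ℤ) : ℂ) = 0 := by
      push_cast
      linear_combination ((P : ℂ) - Q - Q * ω) * hPQ + (Q : ℂ) ^ 2 * hω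
    have e2 : P ^ 2 - P * Q + Q ^ 2 = 0 := by exact_mod_cast e1
    constructor <;> nlinarith [sq_nonneg (2 * P - Q), sq_nonneg (2 * Q - P), sq_nonneg P, sq_nonneg Q]
  obtain ⟨E1, E2⟩ := ind ((a + b * x1) * (a + b * x2) - b ^ 2 * y1 * y2 - D * x3)
    ((a + b * x1) * b * y2 + (a + b * x2) * b * y1 - b ^ 2 * y1 * y2 - D * y3) (by
      push_cast
      linear_combination h + e - (b : ℂ) ^ 2 * y1 * y2 * hω)
  have c2 : 0 < c ^ 2 := by positivity
  have D0 : D ≠ 0 := by rintro rfl; nlinarith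
  rcases six_int ha hb D0 h1 h2 h3 (sub_eq_zero.1 E1) (sub_eq_zero.1 E2) with ⟨s, hs, k⟩ | k
  · rcases sq_eq_sq_iff_eq_or_eq_neg.1 (k.trans hD) with k | k
    · exact ⟨s, hs, .inl k⟩
    · have s4 : s ^ 2 ≤ 4 := by nlinarith [abs_nonneg s, sq_abs s]
      nlinarith [sq_nonneg (2 * a + s * b), mul_le_mul_of_nonneg_right s4 (sq_nonneg b)]
  · rcases sq_eq_sq_iff_eq_or_eq_neg.1 (k.trans hD) with k | k
    · exact (Tri.of_sq (a := b) (b := c) (c := a) (by linarith)).rot.rot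
    · exact (Tri.of_sq (a := c) (b := a) (c := b) (by linarith)).rot

theorem cls {a b c : ℤ} (ha : a ≠ 0) (hb : b ≠ 0) (hc : c ≠ 0) {u v w : ℂ} {N : ℕ} (hN : 0 < N)
    (hu : u ^ N = 1) (hv : v ^ N = 1) (hw : w ^ N = 1)
    (h : (a + b * u) * (a + b * v) = (c : ℂ) ^ 2 * w) (m1 m2 m12 m3 : Prop) [Decidable m1]
    [Decidable m2] [Decidable m12] [Decidable m3] (r1 : m1 → m2 → m12) (r2 : m1 → m12 → m2)
    (r3 : m2 → m12 → m1)
    (h0 : (a : ℂ) ^ 2 + (if m1 then a * b * u else 0) + (if m2 then a * b * v else 0) +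
      (if m12 then b ^ 2 * (u * v) else 0) - (if m3 then c ^ 2 * w else 0) = 0) :
    Tri a b c ∨ (m1 ∧ m2 ∧ m3) := by
  have ha' : (a : ℂ) ≠ 0 := by exact_mod_cast ha
  have hb' : (b : ℂ) ≠ 0 := by exact_mod_cast hb
  have hc' : (c : ℂ) ≠ 0 := by exact_mod_cast hc
  have u0 : u ≠ 0 := by rintro rfl; simp [hN.ne'] at hu
  have v0 : v ≠ 0 := by rintro rfl; simp [hN.ne'] at hv
  have w0 : w ≠ 0 := by rintro rfl; simp [hN.ne'] at hw
  have nz : (a + b * u) * (a + b * v) ≠ 0 := h ▸ mul_ne_zero (pow_ne_zero 2 hc') w0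
  have nu := left_ne_zero_of_mul nz
  have nv := right_ne_zero_of_mul nz
  have huv : (u * v) ^ N = 1 := by rw [mul_pow, hu, hv, one_mul]
  have a2 : 0 < |a| := abs_pos.2 ha
  have b2 : 0 < |b| := abs_pos.2 hb
  have c2 : 0 < |c| := abs_pos.2 hc
  by_cases k1 : m1 <;> by_cases k2 : m2 <;> by_cases k12 : m12 <;> by_cases k3 : m3 <;>
    simp only [k1, k2, k12, k3, if_true, if_false] at h0 <;> try tauto
  · exact absurd (by linear_combination h0) nz
  · exact absurd (by linear_combination h - h0) (mul_ne_zero (mul_ne_zero hb' v0) nu)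
  · exact absurd (by linear_combination h0) (mul_ne_zero ha' nu)
  · exact absurd (by linear_combination h - h0) (mul_ne_zero (mul_ne_zero hb' u0) nv)
  · exact absurd (by linear_combination h0) (mul_ne_zero ha' nv)
  · left
    have := three (A := a ^ 2) (B := -b ^ 2) (C := c ^ 2) hN huv hw
      (by push_cast; linear_combination h0)
    rw [abs_neg] at this
    rcases this with ⟨e1, e2⟩ | e | e | e
    · exact Tri.of_eq (sq_abs_eq e1) (sq_abs_eq e2)
    all_goals simp only [abs_pow, sq_abs] at e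
    exacts [Tri.of_sq e, (Tri.of_sq e).rot.rot, (Tri.of_sq e).rot]
  · left
    have e0 : |a| = |b| := by
      have := abs_eq_of_root (A := a ^ 2) (B := -b ^ 2) hN huv
        (by push_cast; linear_combination h0)
      rw [abs_neg] at this
      exact sq_abs_eq this
    have := three (A := c ^ 2) (B := a * b) (C := a * b) (l := u * w⁻¹) (m := v * w⁻¹) hN
      (by rw [mul_pow, inv_pow, hu, hw]; simp) (by rw [mul_pow, inv_pow, hv, hw]; simp)
      (by push_cast; field_simp; linear_combination h0 - h)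
    rw [abs_mul, abs_pow, e0] at this
    rcases this with ⟨e1, -⟩ | e | e | e
    · exact Tri.of_eq e0 (by nlinarith)
    · nlinarith
    · exact Tri.of_abs (Tri.of_sq (by rw [e0]; linarith))
    · nlinarith
  · left
    have e0 : |a| = |c| := sq_abs_eq (abs_eq_of_root (A := a ^ 2) (B := c ^ 2) hN hw
      (by push_cast; linear_combination h0))
    have e1 : (b : ℂ) * (a * u + a * v + b * (u * v)) = 0 := by linear_combination h - h0
    have e2 := (mul_eq_zero.1 e1).resolve_left hb'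
    have := three (A := b) (B := -a) (C := -a) (l := u⁻¹) (m := v⁻¹) hN
      (by rw [inv_pow, hu]; simp) (by rw [inv_pow, hv]; simp)
      (by push_cast; field_simp; linear_combination e2)
    rw [abs_neg] at this
    rcases this with ⟨e3, -⟩ | e | e | e
    · exact Tri.of_eq e3.symm (e3.trans e0)
    · omega
    · exact (Tri.of_deg (a := c) (b := a) (c := b) (by omega)).rot
    · omega
  · exact absurd (by linear_combination h0) (pow_ne_zero 2 ha')

theorem five_pow {a b c : ℤ} (ha : a ≠ 0) (hb : b ≠ 0) (hc : c ≠ 0) (N : ℕ) : 0 < N →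
    ∀ (z : ℂ), IsPrimitiveRoot z N → ∀ k1 k2 k3 : ℕ,
      (a + b * z ^ k1) * (a + b * z ^ k2) = (c : ℂ) ^ 2 * z ^ k3 → Tri a b c := by
  induction N using Nat.strong_induction_on with
  | _ N ih =>
  intro hN z hz k1 k2 k3 h
  have pw : ∀ k n : ℕ, N ∣ n → (z ^ k) ^ n = 1 := fun k n hn => by
    rw [← pow_mul, hz.pow_eq_one_iff_dvd]; exact hn.mul_left k
  by_cases h6 : N ∣ 6
  · exact six ha hb hc (pw _ _ h6) (pw _ _ h6) (pw _ _ h6) h
  obtain ⟨p, M, hp, rfl, h5⟩ : ∃ p M : ℕ, p.Prime ∧ N = M * p ∧ (p ∣ M ∨ 5 ≤ p) := by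
    by_contra hcon
    refine h6 ((Nat.dvd_iff_prime_pow_dvd_dvd 6 N).2 fun p k hp hk => ?_)
    match k with
    | 0 => simp
    | 1 =>
      rw [pow_one] at hk ⊢
      obtain ⟨M, hM⟩ := hk
      have : ¬ 5 ≤ p := fun e => hcon ⟨p, M, hp, by rw [hM, mul_comm], .inr e⟩
      have := hp.two_le
      have h4 : p ≠ 4 := by rintro rfl; norm_num at hp
      have : p = 2 ∨ p = 3 := by omega
      rcases this with rfl | rfl <;> norm_num
    | k + 2 =>
      obtain ⟨M, hM⟩ := hk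
      exact absurd ⟨p, p * (p ^ k * M), hp, by rw [hM]; ring, .inl (dvd_mul_right _ _)⟩ hcon
  have hM : 0 < M := Nat.pos_of_mul_pos_right hN
  rcases mann5 hp hM h5 hz ![a ^ 2, a * b, a * b, b ^ 2, -c ^ 2] ![0, k1, k2, k1 + k2, k3]
    (by simp [Fin.sum_univ_five]; linear_combination h) with h0 | h0
  · have := cls ha hb hc hN (pw k1 _ dvd_rfl) (pw k2 _ dvd_rfl) (pw k3 _ dvd_rfl) h
      (p ∣ k1) (p ∣ k2) (p ∣ k1 + k2) (p ∣ k3) (fun x y => x.add y)
      (fun x y => (Nat.dvd_add_right x).1 y) (fun x y => (Nat.dvd_add_left x).1 y) (by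
        simp [Fin.sum_univ_five] at h0
        split_ifs at h0 ⊢ <;> linear_combination h0)
    rcases this with t | ⟨⟨j1, rfl⟩, ⟨j2, rfl⟩, ⟨j3, rfl⟩⟩
    · exact t
    · refine ih M (lt_mul_of_one_lt_right hM hp.one_lt) hM (z ^ p)
        (hz.pow hN (mul_comm _ _)) j1 j2 j3 ?_
      simpa only [pow_mul] using h
  · have e1 : |a ^ 2| = |b ^ 2| := h0 0 3
    have e2 : |b ^ 2| = |-c ^ 2| := h0 3 4
    rw [abs_neg] at e2
    exact Tri.of_eq (sq_abs_eq e1) (sq_abs_eq e2)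

theorem five {a b c : ℤ} {u v w : ℂ} {N : ℕ} (hN : 0 < N) (hu : u ^ N = 1) (hv : v ^ N = 1)
    (hw : w ^ N = 1) (h : (a + b * u) * (a + b * v) = (c : ℂ) ^ 2 * w) : Tri a b c := by
  have w0 : w ≠ 0 := by rintro rfl; simp [hN.ne'] at hw
  by_cases ha : a = 0
  · subst ha
    have := abs_eq_of_root (A := c ^ 2) (B := b ^ 2) (u := u * v * w⁻¹) hN
      (by rw [mul_pow, mul_pow, inv_pow, hu, hv, hw]; simp)
      (by push_cast at h ⊢; field_simp; linear_combination -h)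
    exact Tri.of_deg (by rw [sq_abs_eq this]; simp)
  by_cases hb : b = 0
  · subst hb
    have := abs_eq_of_root (A := a ^ 2) (B := c ^ 2) hN hw
      (by push_cast at h ⊢; linear_combination h)
    exact Tri.of_deg (by rw [sq_abs_eq this]; simp)
  by_cases hc : c = 0
  · subst hc
    have e : |a| = |b| := by
      rcases mul_eq_zero.1 (h.trans (by simp)) with e | e
      · simpa using abs_eq_of_root (A := a) (B := -b) hN hu (by push_cast; linear_combination e)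
      · simpa using abs_eq_of_root (A := a) (B := -b) hN hv (by push_cast; linear_combination e)
    exact (Tri.of_deg (a := 0) (b := a) (c := b) (by simpa using e)).rot
  have : NeZero N := ⟨hN.ne'⟩
  have hz := Complex.isPrimitiveRoot_exp N hN.ne'
  obtain ⟨k1, -, rfl⟩ := hz.eq_pow_of_pow_eq_one hu
  obtain ⟨k2, -, rfl⟩ := hz.eq_pow_of_pow_eq_one hv
  obtain ⟨k3, -, rfl⟩ := hz.eq_pow_of_pow_eq_one hw
  exact five_pow ha hb hc N hN _ hz k1 k2 k3 h

end Pool.Agent.Lib.MP_e29efe_nt
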