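import Pool.Agent.Lib.MP_e29efe_nt.Alg
import Pool.Agent.Lib.MP_e29efe_nt.Five

/-! Three term relations on a group with an abelian subgroup of index at most two. -/

set_option autoImplicit false

namespace Pool.Agent.Lib.MP_e29efe_nt

theorem idx_one {G : Type*} [Group G] [Finite G] {g h : G} (c1 : Commute g (h * g * h⁻¹))
    (c2 : Commute g (h * h)) (c3 : Commute (h * g * h⁻¹) (h * h)) {a b c : ℤ} (f : G → ℂ)
    (f0 : f ≠ 0) (hf : ∀ x, a * f x + b * f (x * g) + c * f (x * h) = 0) : Tri a b c := by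
  set X := rt G g with hX
  set Y := rt G (h * g * h⁻¹) with hY
  set Z := rt G (h * h) with hZ
  have d1 : Commute X Y := c1.map (rt G)
  have d2 : Commute X Z := c2.map (rt G)
  have d3 : Commute Y Z := c3.map (rt G)
  set T : Module.End ℂ (G → ℂ) :=
    ((a : ℂ) • 1 + (b : ℂ) • X) * ((a : ℂ) • 1 + (b : ℂ) • Y) - (c : ℂ) ^ 2 • Z with hT
  have cm : ∀ W : Module.End ℂ (G → ℂ), Commute X W → Commute Y W → Commute Z W → Commute T W :=
    fun W h1 h2 h3 =>
      ((((Commute.one_left W).smul_left _).add_left (h1.smul_left _)).mul_left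
        (((Commute.one_left W).smul_left _).add_left (h2.smul_left _))).sub_left (h3.smul_left _)
  have hTf : T f = (0 : ℂ) • f := by
    funext x
    have e1 := hf x
    have e2 := hf (x * h)
    have e3 := hf (x * (h * g * h⁻¹))
    have e4 : x * (h * g * h⁻¹) * h = x * h * g := by group
    have e5 : x * g * (h * g * h⁻¹) = x * (h * g * h⁻¹) * g := by
      rw [mul_assoc, c1.eq, ← mul_assoc]
    rw [e4] at e3
    simp only [hT, hX, hY, hZ, Module.End.mul_apply, LinearMap.add_apply, LinearMap.sub_apply,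
      LinearMap.smul_apply, Module.End.one_apply, rt_apply, Pi.add_apply, Pi.sub_apply,
      Pi.smul_apply, smul_eq_mul, e5, ← mul_assoc x h h]
    linear_combination a * e1 + b * e3 - c * e2
  obtain ⟨u, w1, m1, n1, k1⟩ := eig X (T.eigenspace 0) (Module.End.mem_eigenspace_iff.2 hTf) f0
    (inv_of_comm (cm X (Commute.refl X) d1.symm d2.symm) 0)
  obtain ⟨v, w2, m2, n2, k2⟩ := eig Y (T.eigenspace 0 ⊓ X.eigenspace u) (v := w1)
    ⟨m1, Module.End.mem_eigenspace_iff.2 k1⟩ n1
    (fun y hy => ⟨inv_of_comm (cm Y d1 (Commute.refl Y) d3.symm) 0 y hy.1,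
      inv_of_comm d1 u y hy.2⟩)
  obtain ⟨w, w3, m3, n3, k3⟩ := eig Z ((T.eigenspace 0 ⊓ X.eigenspace u) ⊓ Y.eigenspace v)
    (v := w2) ⟨m2, Module.End.mem_eigenspace_iff.2 k2⟩ n2
    (fun y hy => ⟨⟨inv_of_comm (cm Z d2 d3 (Commute.refl Z)) 0 y hy.1.1,
      inv_of_comm d2 u y hy.1.2⟩, inv_of_comm d3 v y hy.2⟩)
  have t0 : T w3 = (0 : ℂ) • w3 := Module.End.mem_eigenspace_iff.1 m3.1.1
  have t1 : X w3 = u • w3 := Module.End.mem_eigenspace_iff.1 m3.1.2
  have t2 : Y w3 = v • w3 := Module.End.mem_eigenspace_iff.1 m3.2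
  have pw : ∀ y : G, rt G y ^ Nat.card G = 1 := fun y => by
    rw [← map_pow, pow_card_eq_one', map_one]
  refine five Nat.card_pos (root_of t1 n3 (pw _)) (root_of t2 n3 (pw _)) (root_of k3 n3 (pw _)) ?_
  have e : (((a : ℂ) + b * u) * (a + b * v) - (c : ℂ) ^ 2 * w) • w3 = 0 := by
    rw [← zero_smul ℂ w3, ← t0]
    simp only [hT, Module.End.mul_apply, LinearMap.add_apply, LinearMap.sub_apply,
      LinearMap.smul_apply, Module.End.one_apply, map_add, map_smul, t1, t2, k3]
    module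
  exact sub_eq_zero.1 ((smul_eq_zero.1 e).resolve_right n3)

theorem idx {G : Type*} [Group G] [Finite G] (A : Subgroup G) (hA : A.index ≤ 2)
    (hc : ∀ x ∈ A, ∀ y ∈ A, x * y = y * x) (g h : G) {a b c : ℤ} (f : G → ℂ) (f0 : f ≠ 0)
    (hf : ∀ x, a * f x + b * f (x * g) + c * f (x * h) = 0) : Tri a b c := by
  have two : ∀ x y, x ∉ A → y ∉ A → x * y ∈ A := fun x y hx hy => by
    have h0 : A.index ≠ 0 := A.index_ne_zero_of_finite
    have h1 : A.index ≠ 1 := fun e => hx (by rw [Subgroup.index_eq_one.1 e]; trivial)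
    exact (Subgroup.mul_mem_iff_of_index_two (by omega)).2 (iff_of_false hx hy)
  have one : ∀ (g h : G) (a b c : ℤ), g ∈ A →
      (∀ x, a * f x + b * f (x * g) + c * f (x * h) = 0) → Tri a b c := by
    intro g h a b c hg hf
    have m1 : h * g * h⁻¹ ∈ A := by
      by_cases hh : h ∈ A
      · exact A.mul_mem (A.mul_mem hh hg) (A.inv_mem hh)
      · exact two _ _ (fun e => hh ((A.mul_mem_cancel_right hg).1 e))
          (fun e => hh (A.inv_mem_iff.1 e))
    have m2 : h * h ∈ A := by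
      by_cases hh : h ∈ A
      exacts [A.mul_mem hh hh, two _ _ hh hh]
    exact idx_one (hc _ hg _ m1) (hc _ hg _ m2) (hc _ m1 _ m2) f f0 hf
  by_cases hg : g ∈ A
  · exact one g h a b c hg hf
  by_cases hh : h ∈ A
  · exact (one h g a c b hh fun x => by linear_combination hf x).swap.rot
  · refine (one (g⁻¹ * h) g⁻¹ b c a (two _ _ (fun e => hg (A.inv_mem_iff.1 e)) hh)
      fun x => ?_).rot.rot
    have := hf (x * g⁻¹)
    rw [inv_mul_cancel_right, mul_assoc x] at this
    linear_combination this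

end Pool.Agent.Lib.MP_e29efe_nt
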