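import Mathlib

/-! Three term relations among roots of unity, and the passage from conjugates to functions on
the Galois group. -/

set_option autoImplicit false

namespace Pool.Agent.Lib.MP_e29efe_nt

open Polynomial

theorem tr_int {w : ℂ} {N : ℕ} (hN : 0 < N) (hw : w ^ N = 1) {P Q : ℤ}
    (h : (P : ℂ) * (w + w⁻¹) = Q) : ∃ s : ℤ, Q = P * s ∧ |s| ≤ 2 := by
  by_cases hP : P = 0
  · refine ⟨0, ?_, by norm_num⟩
    rw [hP, Int.cast_zero, zero_mul] at h
    have : Q = 0 := by exact_mod_cast h.symm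
    rw [this, mul_zero]
  have hP' : (P : ℂ) ≠ 0 := by exact_mod_cast hP
  have i1 : IsIntegral ℤ w := IsIntegral.of_pow hN (by rw [hw]; exact isIntegral_one)
  have i2 : IsIntegral ℤ w⁻¹ :=
    IsIntegral.of_pow hN (by rw [inv_pow, hw, inv_one]; exact isIntegral_one)
  have e : w + w⁻¹ = algebraMap ℚ ℂ ((Q : ℚ) / P) := by
    rw [eq_ratCast, Rat.cast_div, Rat.cast_intCast, Rat.cast_intCast, eq_div_iff hP', ← h, mul_comm]
  have i3 : IsIntegral ℤ ((Q : ℚ) / P) := by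
    rw [← isIntegral_algebraMap_iff (algebraMap ℚ ℂ).injective, ← e]
    exact i1.add i2
  obtain ⟨s, hs⟩ := IsIntegrallyClosed.isIntegral_iff.1 i3
  have e2 : w + w⁻¹ = (s : ℂ) := by rw [e, ← hs]; simp
  have n1 : ‖w‖ = 1 := Complex.norm_eq_one_of_pow_eq_one hw hN.ne'
  refine ⟨s, ?_, ?_⟩
  · rw [e2] at h; exact_mod_cast h.symm
  · have := norm_add_le w w⁻¹
    rw [e2, norm_inv, n1, inv_one, Complex.norm_intCast] at this
    have h2 : ((|s| : ℤ) : ℝ) ≤ ((2 : ℤ) : ℝ) := by push_cast; linarith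
    exact_mod_cast h2

theorem heron {x y z : ℤ} (hx : 0 ≤ x) (hy : 0 ≤ y) (hz : 0 ≤ z)
    (h : (x ^ 2 + y ^ 2 - z ^ 2) ^ 2 = 4 * x ^ 2 * y ^ 2) :
    x + y = z ∨ y + z = x ∨ z + x = y := by
  have e : (x + y - z) * ((y + z - x) * ((z + x - y) * (x + y + z))) = 0 := by
    linear_combination (-1 : ℤ) * h
  rcases mul_eq_zero.1 e with e | e
  · omega
  rcases mul_eq_zero.1 e with e | e
  · omega
  rcases mul_eq_zero.1 e with e | e <;> omega

theorem side {A B C s : ℤ} (h : A ^ 2 + B ^ 2 - C ^ 2 = A * B * s) (hs : |s| ≤ 2) :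
    (|A| + |B| = |C| ∨ |B| + |C| = |A| ∨ |C| + |A| = |B|) ∨
      |A| ^ 2 + |B| ^ 2 - |C| ^ 2 ≤ |A| * |B| := by
  rcases hs.eq_or_lt with e | e
  · left
    refine heron (abs_nonneg A) (abs_nonneg B) (abs_nonneg C) ?_
    have e2 : s ^ 2 = 4 := by rw [← sq_abs, e]; norm_num
    rw [sq_abs, sq_abs, sq_abs, h, mul_pow, e2]; ring
  · right
    rw [sq_abs, sq_abs, sq_abs, h]
    refine (le_abs_self _).trans ?_
    rw [abs_mul, abs_mul]
    have h1 : |s| ≤ 1 := by omega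
    have h2 : 0 ≤ |A| * |B| := by positivity
    nlinarith

theorem three {A B C : ℤ} {l m : ℂ} {N : ℕ} (hN : 0 < N) (hl : l ^ N = 1) (hm : m ^ N = 1)
    (h : (A : ℂ) = B * l + C * m) :
    (|A| = |B| ∧ |B| = |C|) ∨ |A| + |B| = |C| ∨ |B| + |C| = |A| ∨ |C| + |A| = |B| := by
  have l0 : l ≠ 0 := by rintro rfl; simp [hN.ne'] at hl
  have m0 : m ≠ 0 := by rintro rfl; simp [hN.ne'] at hm
  have h' : (A : ℂ) = B * l⁻¹ + C * m⁻¹ := by
    have := congrArg (starRingEnd ℂ) h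
    rwa [map_add, map_mul, map_mul, map_intCast, map_intCast, map_intCast,
      ← Complex.inv_eq_conj (Complex.norm_eq_one_of_pow_eq_one hl hN.ne'),
      ← Complex.inv_eq_conj (Complex.norm_eq_one_of_pow_eq_one hm hN.ne')] at this
  have ll : l * l⁻¹ = 1 := mul_inv_cancel₀ l0
  have mm : m * m⁻¹ = 1 := mul_inv_cancel₀ m0
  obtain ⟨s, hs, s2⟩ := tr_int hN hl (P := A * B) (Q := A ^ 2 + B ^ 2 - C ^ 2) (by
    push_cast
    linear_combination (-(A - B * l⁻¹ : ℂ)) * h - C * m * h' + (B : ℂ) ^ 2 * ll - (C : ℂ) ^ 2 * mm)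
  obtain ⟨t, ht, t2⟩ := tr_int hN hm (P := C * A) (Q := C ^ 2 + A ^ 2 - B ^ 2) (by
    push_cast
    linear_combination (-(A - C * m⁻¹ : ℂ)) * h - B * l * h' + (C : ℂ) ^ 2 * mm - (B : ℂ) ^ 2 * ll)
  obtain ⟨r, hr, r2⟩ := tr_int hN (w := l * m⁻¹) (by rw [mul_pow, inv_pow, hl, hm]; simp)
    (P := B * -C) (Q := B ^ 2 + (-C) ^ 2 - A ^ 2) (by
    rw [mul_inv, inv_inv]
    push_cast
    linear_combination (A : ℂ) * h + (B * l + C * m) * h' + (B : ℂ) ^ 2 * ll + (C : ℂ) ^ 2 * mm)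
  rcases side hs s2 with h1 | h1
  · exact Or.inr h1
  rcases side ht t2 with h2 | h2
  · right; omega
  rcases side hr r2 with h3 | h3
  · rw [abs_neg] at h3; right; omega
  rw [abs_neg] at h3
  left
  constructor <;> nlinarith [sq_nonneg (|A| - |B|), sq_nonneg (|B| - |C|), sq_nonneg (|C| - |A|)]

theorem logc {K : Type} [Field K] {x : K} (h0 : x ≠ 0) (hr : ∀ k : ℕ, 0 < k → x ^ k ≠ 1) :
    ∃ φ : Additive Kˣ →+ ℂ, φ (Additive.ofMul (Units.mk0 x h0)) = 1 := by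
  have hfin : ¬ IsOfFinOrder (Units.mk0 x h0) := by
    rw [isOfFinOrder_iff_pow_eq_one]
    rintro ⟨k, hk, e⟩
    exact hr k hk (by simpa using congrArg Units.val e)
  have inj : Function.Injective (zmultiplesHom (Additive Kˣ) (Additive.ofMul (Units.mk0 x h0))) := by
    intro i j e
    exact injective_zpow_iff_not_isOfFinOrder.2 hfin e
  obtain ⟨φ, hφ⟩ := (Module.Baer.of_divisible ℂ).extension_property_addMonoidHom _ inj
    (Int.castAddHom ℂ)
  refine ⟨φ, ?_⟩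
  simpa using DFunLike.congr_fun hφ 1

theorem act {K G : Type} [Field K] [Group G] [MulSemiringAction G K] {x : K} (h0 : x ≠ 0)
    (hr : ∀ k : ℕ, 0 < k → x ^ k ≠ 1) (g h : G) {a b c : ℤ}
    (hrel : x ^ a * (g • x) ^ b * (h • x) ^ c = 1) :
    ∃ f : G → ℂ, f ≠ 0 ∧ ∀ y, a * f y + b * f (y * g) + c * f (y * h) = 0 := by
  obtain ⟨φ, hφ⟩ := logc h0 hr
  have nz : ∀ y : G, y • x ≠ 0 := fun y => (smul_ne_zero_iff_ne y).2 h0
  refine ⟨fun y => φ (Additive.ofMul (Units.mk0 (y • x) (nz y))), fun e => ?_, fun y => ?_⟩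
  · have := congrFun e 1
    simp only [one_smul, hφ, Pi.zero_apply] at this
    exact one_ne_zero this
  · have e : Units.mk0 (y • x) (nz y) ^ a * Units.mk0 ((y * g) • x) (nz _) ^ b *
        Units.mk0 ((y * h) • x) (nz _) ^ c = 1 := by
      have := congrArg (MulSemiringAction.toRingHom G K y) hrel
      simp only [map_mul, map_zpow₀, map_one, MulSemiringAction.toRingHom_apply] at this
      refine Units.ext ?_
      simpa [mul_smul] using this
    have e2 := congrArg (fun u => φ (Additive.ofMul u)) e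
    simpa only [ofMul_mul, ofMul_zpow, map_add, map_zsmul, ofMul_one, map_zero, zsmul_eq_mul]
      using e2

theorem gal {F : Type} [Field F] [Algebra F ℂ] {a b c : ℤ} {α β γ : ℂ} (h0 : α ≠ 0) (halg : IsAlgebraic F α)
    (hβ : aeval β (minpoly F α) = 0) (hγ : aeval γ (minpoly F α) = 0)
    (hrel : α ^ a * β ^ b * γ ^ c = 1) (hroot : ∀ k : ℕ, 0 < k → α ^ k ≠ 1) :
    ∃ (g h : (minpoly F α).Gal) (f : (minpoly F α).Gal → ℂ), f ≠ 0 ∧
      ∀ y, a * f y + b * f (y * g) + c * f (y * h) = 0 := by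
  set p := minpoly F α with hp
  have p0 : p ≠ 0 := minpoly.ne_zero halg.isIntegral
  let ι : p.SplittingField →ₐ[F] ℂ := IsSplittingField.lift _ p (IsAlgClosed.splits _)
  have up : ∀ δ : ℂ, aeval δ p = 0 → ∃ d : p.SplittingField, aeval d p = 0 ∧ ι d = δ := by
    intro δ hδ
    have h1 : δ ∈ p.rootSet ℂ := mem_rootSet.2 ⟨p0, hδ⟩
    rw [← (SplittingField.splits p).image_rootSet ι] at h1
    obtain ⟨d, hd, e⟩ := h1
    exact ⟨d, (mem_rootSet.1 hd).2, e⟩
  obtain ⟨x, -, ex⟩ := up α (minpoly.aeval F α)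
  obtain ⟨y, hy, ey⟩ := up β hβ
  obtain ⟨z, hz, ez⟩ := up γ hγ
  have mp : minpoly F x = p := by rw [← minpoly.algHom_eq ι ι.injective x, ex]
  have xa : IsAlgebraic F x := Algebra.IsAlgebraic.isAlgebraic x
  obtain ⟨g, hg⟩ := minpoly.exists_algEquiv_of_root' xa (x := y) (by rw [mp]; exact hy)
  obtain ⟨h, hh⟩ := minpoly.exists_algEquiv_of_root' xa (x := z) (by rw [mp]; exact hz)
  refine ⟨g, h, ?_⟩
  refine act (K := p.SplittingField) (G := p.Gal) (x := x) ?_ ?_ g h ?_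
  · rintro rfl; exact h0 (by rw [← ex, map_zero])
  · intro k hk e
    exact hroot k hk (by rw [← ex, ← map_pow, e, map_one])
  · change x ^ a * (g x) ^ b * (h x) ^ c = 1
    refine ι.injective ?_
    change ι _ = ι _
    rw [map_mul, map_mul, map_zpow₀, map_zpow₀, map_zpow₀, hg, hh, ex, ey, ez, hrel, map_one]

end Pool.Agent.Lib.MP_e29efe_nt
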