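import Mathlib
import Pool.Agent.Lib.MP_e29efe_nt.Sy.Flat
import Pool.Agent.Lib.MP_e29efe_nt.Sy.Point
import Pool.Agent.Lib.MP_e29efe_nt.Sy.Prim
import Pool.Agent.Lib.MP_e29efe_nt.Sy.Theta
import Pool.Agent.Lib.MP_e29efe_nt.Sy.Peel
import Pool.Agent.Lib.MP_e29efe_nt.Sy.Phi
import Pool.Agent.Lib.MP_e29efe_nt.Sy.Core
import Pool.Agent.Lib.MP_e29efe_nt.Sy.Nec
import Pool.Agent.Lib.MP_e29efe_nt.Sy.Decomp
import Pool.Agent.Lib.MP_e29efe_nt.Sy.Approx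
import Pool.Agent.Lib.MP_e29efe_nt.Sy.Sym
import Pool.Agent.Lib.MP_e29efe_nt.Sy.Suf

set_option autoImplicit false

namespace Pool.Agent.Lib.MP_e29efe_nt.SystemsOld

open Pool.Agent.Lib.MP_e29efe_nt.Sy

theorem result (d : ℕ) (L : Submodule ℤ (Fin (d + 1) → ℤ))
    (hL : ∀ (k : ℤ) (b : Fin (d + 1) → ℤ), k ≠ 0 → k • b ∈ L → b ∈ L) :
    (∃ α : Fin (d + 1) → ℂ, α 0 ≠ 0 ∧ IsAlgebraic ℚ (α 0) ∧
      (∀ i, Polynomial.aeval (α i) (minpoly ℚ (α 0)) = 0) ∧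
      (∀ n : ℕ, 0 < n → α 0 ^ n ≠ 1) ∧
      ∀ b : Fin (d + 1) → ℤ, b ∈ L ↔ ∏ i, α i ^ b i = 1) ↔
    (∀ b ∈ L, ∀ (i : Fin (d + 1)) (p : ℕ), p.Prime →
      (∀ j, j ≠ i → (p : ℤ) ∣ b j) → (p : ℤ) ∣ b i) ∧
    ∃ (m : ℕ) (u : Fin (d + 1) → EuclideanSpace ℝ (Fin m)), (∀ i, ‖u i‖ = 1) ∧
      ∀ c : Fin (d + 1) → ℝ, ∑ i, c i • u i = 0 ↔
        c ∈ Submodule.span ℝ
          ((fun (b : Fin (d + 1) → ℤ) (i : Fin (d + 1)) => (b i : ℝ)) ''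
            (L : Set (Fin (d + 1) → ℤ))) :=
  ⟨fun h => nec_st flat_st d L hL h, fun h =>
    suf_st (decomp_st prim_st flat_st) (core_st (approx_st theta_st) point_st peel_st phi_st)
      sym_st d L hL h.1 h.2⟩

end Pool.Agent.Lib.MP_e29efe_nt.SystemsOld
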